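import Pool.Agent.Work.MP_59976d_co_even_helper38.S3
import Pool.Agent.Work.MP_59976d_co_odd.LV

/-!
Blocks LvE0, LvE1: level lemmas over a base group with a unique involution.
-/

namespace Pool.Agent.Work.MP_59976d_co

open Finset
open scoped Pointwise

universe u

/-- (LvE1) with one more hypothesis: `α i + α (i + τ) ≤ P`. -/
def Stmt_LvE1p : Prop :=
  ∀ (R : Type u) [AddCommGroup R] [Fintype R] [DecidableEq R], LL R →
    ∀ τ : R, τ ≠ 0 → τ + τ = 0 → (∀ x : R, x + x = 0 → x = 0 ∨ x = τ) →
    ∀ (P n : ℕ) (α β γ : R → ℕ), (∀ i, α i ≤ P) → (∀ i, β i ≤ P) →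
      (∀ i, α i + α (i + τ) ≤ P) →
      2 ≤ n → α 0 = n → β 0 = n → γ 0 + 3 = 2 * n → 2 * n ≤ P + 1 →
      (∀ i j, i ≠ j → 1 ≤ α i → 1 ≤ β j → min P (α i + β j - 1) ≤ γ (i + j)) →
      (∀ i, i ≠ 0 → i ≠ τ → 1 ≤ α i → 1 ≤ β i → min P (α i + β i - 3) ≤ γ (i + i)) →
      α τ + β τ ≤ γ τ →
      (1 ≤ α τ → 1 ≤ β τ → α τ + β τ + 1 ≤ 2 * n ∨ (α τ = n ∧ β τ = n)) →
      ∑ i ∈ univ.erase 0, (α i + β i) ≤ ∑ i ∈ univ.erase 0, γ i

namespace LvE

variable {R : Type u} [AddCommGroup R] [Fintype R] [DecidableEq R]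

/-- One cell, for arbitrary sets. -/
lemma cellG (hR : LL R) {τ : R} (hτ0 : τ ≠ 0) (hτ2 : τ + τ = 0) {γ : R → ℕ} {s : ℕ}
    (X Y E : Finset R) (h0X : (0 : R) ∈ X) (h0Y : (0 : R) ∈ Y)
    (hadm : ∀ a ∈ X, -a ∈ Y → a = 0 ∨ a = τ)
    (hin : ∀ i ∈ X, ∀ j ∈ Y, i ≠ j → s ≤ γ (i + j))
    (hE : ∀ t ∈ E, t ≠ 0 ∧ s ≤ γ t ∧ t ∉ X + Y) (e : ℕ)
    (he : (∃ i ∈ X, i ∈ Y ∧ i + i ≠ 0 ∧ γ (i + i) < s) → 1 ≤ e) :
    X.card + Y.card + E.card ≤ lvl γ s + e + 2 + (if τ ∈ X ∧ τ ∈ Y then 1 else 0) := by
  have hneg : -τ = τ := neg_eq_of_add_eq_zero_left hτ2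
  -- representations of zero
  have hrep : ∀ F : Finset R, (∀ h ∈ F, h ∈ X ∧ -h ∈ Y) →
      F.card ≤ 1 + (if τ ∈ X ∧ τ ∈ Y then 1 else 0) := by
    intro F hF
    split_ifs with hh
    · have : F ⊆ {0, τ} := by
        intro h hh
        rw [mem_insert, mem_singleton]
        exact hadm h (hF h hh).1 (hF h hh).2
      exact (card_le_card this).trans card_le_two
    · have : F ⊆ {0} := by
        intro h hh2
        rw [mem_singleton]
        rcases hadm h (hF h hh2).1 (hF h hh2).2 with h3 | h3
        · exact h3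
        · exfalso
          apply hh
          have h4 := hF h hh2
          rw [h3, hneg] at h4
          exact h4
      have := card_le_card this
      rw [card_singleton] at this
      omega
  have hne0 : ∀ i ∈ X, ∀ j ∈ Y, i ≠ j → i + j ≠ 0 := by
    intro i hi j hj hij h
    have hj' : j = -i := by rw [eq_neg_iff_add_eq_zero, add_comm]; exact h
    rcases hadm i hi (hj' ▸ hj) with h3 | h3
    · apply hij; rw [hj', h3, neg_zero]
    · apply hij; rw [hj', h3, hneg]
  have hlvl : lvl γ s = (univ.filter (fun t => t ≠ 0 ∧ s ≤ γ t)).card := rfl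
  by_cases hloss : ∃ i ∈ X, i ∈ Y ∧ i + i ≠ 0 ∧ γ (i + i) < s
  · have he1 := he hloss
    have h1 := ll_iff.1 hR X Y h0X h0Y (by
      intro a ha hb
      rcases hadm a ha hb with h3 | h3
      · rw [h3, add_zero]
      · rw [h3, hτ2])
    have h2 := hrep (X.filter (fun a => -a ∈ Y)) (fun h hh => mem_filter.1 hh)
    have hdis : Disjoint (rs X Y) E := by
      rw [disjoint_left]
      intro t ht htE
      rw [mem_rs] at ht
      obtain ⟨i, hi, j, hj, _, rfl⟩ := ht
      exact (hE _ htE).2.2 (add_mem_add hi hj)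
    have hsub : rs X Y ∪ E ⊆ univ.filter (fun t => t ≠ 0 ∧ s ≤ γ t) := by
      intro t ht
      rw [mem_union] at ht
      rw [mem_filter]
      rcases ht with ht | ht
      · rw [mem_rs] at ht
        obtain ⟨i, hi, j, hj, hij, rfl⟩ := ht
        exact ⟨mem_univ _, hne0 i hi j hj hij, hin i hi j hj hij⟩
      · exact ⟨mem_univ _, (hE t ht).1, (hE t ht).2.1⟩
    have h3 := card_le_card hsub
    rw [card_union_of_disjoint hdis, ← hlvl] at h3
    omega
  · obtain ⟨H, -, h1⟩ := S3.kneser_coset X Y 0 0 h0X h0Y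
    have h2 := hrep ((S3.el H).filter (fun h => 0 + h ∈ X ∧ 0 - h ∈ Y)) (fun h hh => by
      have := (mem_filter.1 hh).2
      rwa [zero_add, zero_sub] at this)
    have hdis : Disjoint ((X + Y).erase 0) E := by
      rw [disjoint_left]
      intro t ht htE
      exact (hE _ htE).2.2 (mem_of_mem_erase ht)
    have hsub : (X + Y).erase 0 ∪ E ⊆ univ.filter (fun t => t ≠ 0 ∧ s ≤ γ t) := by
      intro t ht
      rw [mem_union] at ht
      rw [mem_filter]
      rcases ht with ht | ht
      · rw [mem_erase, mem_add] at ht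
        obtain ⟨ht0, i, hi, j, hj, rfl⟩ := ht
        refine ⟨mem_univ _, ht0, ?_⟩
        by_cases hij : i = j
        · subst hij
          by_contra hlt
          exact hloss ⟨i, hi, hj, ht0, by omega⟩
        · exact hin i hi j hj hij
      · exact ⟨mem_univ _, (hE t ht).1, (hE t ht).2.1⟩
    have h3 := card_le_card hsub
    have h0 : (0 : R) ∈ X + Y := by
      have := add_mem_add h0X h0Y
      rwa [add_zero] at this
    rw [card_union_of_disjoint hdis, ← hlvl, card_erase_of_mem h0] at h3
    have h4 : 1 ≤ (X + Y).card := card_pos.2 ⟨0, h0⟩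
    omega

/-- One cell `(k, l)` at level `s`. -/
lemma cellE (hR : LL R) {τ : R} (hτ0 : τ ≠ 0) (hτ2 : τ + τ = 0) {P D : ℕ} {α β γ : R → ℕ}
    (hD : ∀ i, i ≠ 0 → i ≠ τ → 1 ≤ α i → 1 ≤ β (-i) → α i + β (-i) + 1 ≤ D)
    (hsum : ∀ i j, i ≠ j → 1 ≤ α i → 1 ≤ β j → min P (α i + β j - 1) ≤ γ (i + j))
    (hα0 : 1 ≤ α 0) (hβ0 : 1 ≤ β 0)
    {k l s : ℕ} (hk : 1 ≤ k) (hl : 1 ≤ l) (hkl : D ≤ k + l) (hsP : s ≤ P)
    (hs1 : s ≤ k + l - 1) (hs2 : s ≤ α 0 + l - 1) (hs3 : s ≤ k + β 0 - 1) (E : Finset R)
    (hE : ∀ t ∈ E, t ≠ 0 ∧ s ≤ γ t ∧ t ∉ lset α k + lset β l) (e : ℕ)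
    (he : (∃ i, i ≠ 0 ∧ i ≠ τ ∧ k ≤ α i ∧ l ≤ β i ∧ γ (i + i) < s) → 1 ≤ e) :
    lvl α k + lvl β l + E.card ≤ lvl γ s + e + (if k ≤ α τ ∧ l ≤ β τ then 1 else 0) := by
  have hneg : -τ = τ := neg_eq_of_add_eq_zero_left hτ2
  have h := cellG hR hτ0 hτ2 (s := s) (γ := γ) (lset α k) (lset β l) E (mem_lset.2 (Or.inl rfl))
    (mem_lset.2 (Or.inl rfl)) (by
      intro a ha hb
      by_contra hcon
      push Not at hcon
      rw [mem_lset] at ha hb
      have ha' : k ≤ α a := ha.resolve_left hcon.1
      have hb' : l ≤ β (-a) := hb.resolve_left (by simpa using hcon.1)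
      have := hD a hcon.1 hcon.2 (by omega) (by omega)
      omega) (by
      intro i hi j hj hij
      rw [mem_lset] at hi hj
      by_cases hi0 : i = 0
      · have hj0 : j ≠ 0 := fun h => hij (by rw [hi0, h])
        have hj' := hj.resolve_left hj0
        have := hsum i j hij (by rw [hi0]; exact hα0) (by omega)
        rw [hi0] at this ⊢
        omega
      · have hi' := hi.resolve_left hi0
        by_cases hj0 : j = 0
        · have := hsum i j hij (by omega) (by rw [hj0]; exact hβ0)
          rw [hj0] at this ⊢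
          omega
        · have hj' := hj.resolve_left hj0
          have := hsum i j hij (by omega) (by omega)
          omega) hE e (by
      rintro ⟨i, hi, hj, hii, hlt⟩
      have hi0 : i ≠ 0 := by
        rintro rfl
        exact hii (add_zero 0)
      have hiτ : i ≠ τ := by
        rintro rfl
        exact hii hτ2
      rw [mem_lset] at hi hj
      exact he ⟨i, hi0, hiτ, hi.resolve_left hi0, hj.resolve_left hi0, hlt⟩)
  rw [card_lset, card_lset] at h
  have h2 : (if τ ∈ lset α k ∧ τ ∈ lset β l then 1 else 0) =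
      (if k ≤ α τ ∧ l ≤ β τ then 1 else 0) := by
    simp only [mem_lset, hτ0, false_or]
  rw [h2] at h
  omega

lemma level_sum {N D a a' b' : ℕ} {α β γ : R → ℕ} (hα : ∀ i, α i ≤ N) (hβ : ∀ i, β i ≤ N)
    (ha : 1 ≤ a) (haD : a ≤ D) (hDN : D ≤ N) (cost gain : ℕ → ℕ)
    (h1 : ∀ s ∈ Icc 1 N, s ≠ D →
      lvl α (kk a D s) + lvl β (ll a D s) + gain s ≤ lvl γ s + cost s)
    (h2 : lvl α a' + lvl β b' + gain D ≤ lvl γ D + cost D) :
    ∑ i ∈ univ.erase 0, (α i + β i) + (lvl α a' + lvl β b') + ∑ s ∈ Icc 1 N, gain s ≤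
      ∑ i ∈ univ.erase 0, γ i + (lvl α D + lvl β D) + ∑ s ∈ Icc 1 N, cost s := by
  have hDm : D ∈ Icc 1 N := by rw [mem_Icc]; omega
  have hkD : kk a D D = D := by
    unfold kk; rw [if_neg (by omega), if_neg (by omega)]
  have hlD : ll a D D = D := by
    unfold ll; rw [if_neg (by omega), if_neg (by omega)]
  have hkey : ∀ s ∈ Icc 1 N, (lvl α (kk a D s) + lvl β (ll a D s)) +
      (if s = D then lvl α a' + lvl β b' else 0) + gain s ≤
      lvl γ s + (if s = D then lvl α D + lvl β D else 0) + cost s := by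
    intro s hs
    by_cases hsD : s = D
    · subst hsD
      rw [hkD, hlD, if_pos rfl, if_pos rfl]
      omega
    · have := h1 s hs hsD
      rw [if_neg hsD, if_neg hsD]
      omega
  have h3 := Finset.sum_le_sum hkey
  simp only [sum_add_distrib, Finset.sum_ite_eq'] at h3
  rw [if_pos hDm, if_pos hDm,
    sum_kk (P := N) (a := a) (D := D) (by omega) (by omega) (by omega) (fun s => lvl α s),
    sum_ll (P := N) (a := a) (D := D) (by omega) (by omega) (by omega) (fun s => lvl β s),
    sum_lvl_eq hα, sum_lvl_eq hβ] at h3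
  have h4 := sum_lvl_le γ N
  rw [sum_add_distrib]
  omega

lemma hD_of' {P D : ℕ} {α β γ : R → ℕ} {τ : R}
    (h2 : ∀ x : R, x + x = 0 → x = 0 ∨ x = τ)
    (hsum : ∀ i j, i ≠ j → 1 ≤ α i → 1 ≤ β j → min P (α i + β j - 1) ≤ γ (i + j))
    (hP : γ 0 + 1 ≤ P) (hDγ : D = γ 0 + 2) :
    ∀ i, i ≠ 0 → i ≠ τ → 1 ≤ α i → 1 ≤ β (-i) → α i + β (-i) + 1 ≤ D := by
  intro i hi hiτ h1 h3
  have h4 : i ≠ -i := by
    intro h
    rw [eq_neg_iff_add_eq_zero] at h
    rcases h2 i h with h5 | h5
    · exact hi h5
    · exact hiτ h5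
  have := hsum i (-i) h4 h1 h3
  rw [add_neg_cancel] at this
  omega

lemma one_le_lvl {γ : R → ℕ} {s : ℕ} {t : R} (ht : t ≠ 0) (h : s ≤ γ t) : 1 ≤ lvl γ s :=
  card_pos.2 ⟨t, by rw [mem_filter]; exact ⟨mem_univ _, ht, h⟩⟩

/-- The cell `(s, s)` with additional points in `X`. -/
lemma cellTop (hR : LL R) {τ : R} (hτ0 : τ ≠ 0) (hτ2 : τ + τ = 0) {P D : ℕ} {α β γ : R → ℕ}
    (hD : ∀ i, i ≠ 0 → i ≠ τ → 1 ≤ α i → 1 ≤ β (-i) → α i + β (-i) + 1 ≤ D)
    (hsum : ∀ i j, i ≠ j → 1 ≤ α i → 1 ≤ β j → min P (α i + β j - 1) ≤ γ (i + j))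
    (hα0 : 1 ≤ α 0) (hβ0 : 1 ≤ β 0) {s : ℕ} (hs1 : 1 ≤ s) (hsP : s ≤ P) (hsD : D ≤ 2 * s)
    (hτs : ¬ (s ≤ α τ ∧ s ≤ β τ)) (Z : Finset R)
    (hZ : ∀ z ∈ Z, z ≠ 0 ∧ 1 ≤ α z ∧ α z < s ∧ s ≤ γ z ∧ β z < s ∧ β (-z) < s)
    (hloss : ∀ i, i ≠ 0 → i ≠ τ → s ≤ α i → s ≤ β i → s ≤ γ (i + i)) :
    lvl α s + lvl β s + Z.card ≤ lvl γ s := by
  have h := cellG hR hτ0 hτ2 (s := s) (γ := γ) (lset α s ∪ Z) (lset β s) ∅
    (mem_union_left _ (mem_lset.2 (Or.inl rfl)))
    (mem_lset.2 (Or.inl rfl)) (by
      intro a ha hb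
      by_contra hcon
      push Not at hcon
      rw [mem_lset] at hb
      have hb' : s ≤ β (-a) := hb.resolve_left (by simpa using hcon.1)
      rw [mem_union, mem_lset] at ha
      rcases ha with ha | ha
      · have ha' : s ≤ α a := ha.resolve_left hcon.1
        have := hD a hcon.1 hcon.2 (by omega) (by omega)
        omega
      · have := hZ a ha
        omega) (by
      intro i hi j hj hij
      rw [mem_union, mem_lset] at hi
      rw [mem_lset] at hj
      by_cases hi0 : i = 0
      · have hj0 : j ≠ 0 := fun h => hij (by rw [hi0, h])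
        have hj' := hj.resolve_left hj0
        have := hsum i j hij (by rw [hi0]; exact hα0) (by omega)
        rw [hi0] at this ⊢
        omega
      · rcases hi with hi | hi
        · have hi' := hi.resolve_left hi0
          by_cases hj0 : j = 0
          · have := hsum i j hij (by omega) (by rw [hj0]; exact hβ0)
            rw [hj0] at this ⊢
            omega
          · have hj' := hj.resolve_left hj0
            have := hsum i j hij (by omega) (by omega)
            omega
        · have hi' := hZ i hi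
          by_cases hj0 : j = 0
          · rw [hj0, add_zero]
            exact hi'.2.2.2.1
          · have hj' := hj.resolve_left hj0
            have := hsum i j hij (by omega) (by omega)
            omega) (by simp) 0 (by
      rintro ⟨i, hi, hj, hii, hlt⟩
      exfalso
      have hi0 : i ≠ 0 := by
        rintro rfl
        exact hii (add_zero 0)
      have hiτ : i ≠ τ := by
        rintro rfl
        exact hii hτ2
      rw [mem_union, mem_lset] at hi
      rw [mem_lset] at hj
      have hj' := hj.resolve_left hi0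
      rcases hi with hi | hi
      · have hi' := hi.resolve_left hi0
        have := hloss i hi0 hiτ hi' hj'
        omega
      · have hi' := hZ i hi
        omega)
  have hdis : Disjoint (lset α s) Z := by
    rw [disjoint_left]
    intro z hz hzZ
    rw [mem_lset] at hz
    have h1 := hZ z hzZ
    have h2 := hz.resolve_left h1.1
    omega
  rw [card_union_of_disjoint hdis, card_lset, card_lset, card_empty] at h
  have h2 : (if τ ∈ lset α s ∪ Z ∧ τ ∈ lset β s then 1 else 0) = 0 := by
    rw [if_neg]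
    rintro ⟨h4, h3⟩
    rw [mem_lset] at h3
    have h5 := h3.resolve_left hτ0
    rw [mem_union, mem_lset] at h4
    rcases h4 with h4 | h4
    · exact hτs ⟨h4.resolve_left hτ0, h5⟩
    · have := hZ τ h4
      omega
  rw [h2] at h
  omega

end LvE

/-- (LvE0). -/
theorem stmt_LvE0 : Stmt_LvE0.{u} := by
  intro R _ _ _ hR τ hτ0 hτ2 h2 P α β γ hαP hβP hα0 hβ0 hγ0 hP hsum hdiag hτ
  have hneg : -τ = τ := neg_eq_of_add_eq_zero_left hτ2
  obtain ⟨D, hDdef⟩ : ∃ D, D = γ 0 + 2 := ⟨_, rfl⟩
  obtain ⟨a, ha⟩ : ∃ a, a = α 0 := ⟨_, rfl⟩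
  obtain ⟨b, hb⟩ : ∃ b, b = β 0 := ⟨_, rfl⟩
  obtain ⟨u, hu⟩ : ∃ u, u = α τ := ⟨_, rfl⟩
  obtain ⟨v, hv⟩ : ∃ v, v = β τ := ⟨_, rfl⟩
  have hD := LvE.hD_of' h2 hsum hP hDdef
  obtain ⟨H, hH⟩ : ∃ H : ℕ, H = if (1 ≤ u ∧ 1 ≤ v ∧ u + v = D) then 1 else 0 := ⟨_, rfl⟩
  obtain ⟨sst, hsst⟩ : ∃ sst : ℕ, sst = if u < a then u else D - 1 + a - u := ⟨_, rfl⟩
  have hH1 : H ≤ 1 := by rw [hH]; split_ifs <;> omega
  have hcost : ∀ s, 1 ≤ s → s < D →
      (if kk a D s ≤ α τ ∧ ll a D s ≤ β τ then 1 else 0) ≤ (if s = sst then H else 0) := by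
    intro s hs1 hsD
    rw [← hu, ← hv]
    have hτ' : 1 ≤ u → 1 ≤ v → u + v ≤ D := by
      intro h1 h3
      have := hτ (by omega) (by omega)
      omega
    by_cases hcase : kk a D s ≤ u ∧ ll a D s ≤ v
    · rw [if_pos hcase]
      obtain ⟨h3, h4⟩ := hcase
      have h5 : s = sst ∧ 1 ≤ u ∧ 1 ≤ v ∧ u + v = D := by
        rw [hsst]
        unfold kk at h3
        unfold ll at h4
        split_ifs at h3 h4 ⊢ <;> omega
      rw [if_pos h5.1, hH, if_pos h5.2]
    · rw [if_neg hcase]
      exact Nat.zero_le _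
  have key := LvE.level_sum (α := α) (β := β) (γ := γ) (N := P + 1) (D := D) (a := a) (a' := D)
    (b' := D) (fun i => (hαP i).trans (Nat.le_succ P)) (fun i => (hβP i).trans (Nat.le_succ P))
    (by omega) (by omega) (by omega)
    (fun s => (if s = D - 1 then 1 else 0) + (if s = sst then H else 0))
    (fun s => if s = D then H else 0) (by
      intro s hs hsD
      rw [mem_Icc] at hs
      beta_reduce
      rw [if_neg hsD, add_zero]
      rcases lt_or_ge s a with h1 | h1
      · have hk : kk a D s = s := by unfold kk; rw [if_pos h1]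
        have hl : ll a D s = D - s := by unfold ll; rw [if_pos h1]
        have hc := hcost s hs.1 (by omega)
        rw [hk, hl] at hc ⊢
        have := LvE.cellE (k := s) (l := D - s) (s := s) hR hτ0 hτ2 hD hsum hα0 hβ0 (by omega)
          (by omega) (by omega) (by omega) (by omega) (by omega) (by omega) ∅ (by simp) 0 (by
            rintro ⟨i, hi0, hiτ, hi1, hi2, hi3⟩
            have := hdiag i hi0 hiτ (by omega) (by omega)
            omega)
        simp only [card_empty, add_zero] at this
        omega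
      · rcases lt_or_ge s D with h3 | h3
        · have hk : kk a D s = D - 1 + a - s := by
            unfold kk; rw [if_neg (by omega), if_pos h3]
          have hl : ll a D s = s + 1 - a := by
            unfold ll; rw [if_neg (by omega), if_pos h3]
          have hc := hcost s hs.1 (by omega)
          rw [hk, hl] at hc ⊢
          have := LvE.cellE (k := D - 1 + a - s) (l := s + 1 - a) (s := s) hR hτ0 hτ2 hD hsum
            hα0 hβ0 (by omega) (by omega)
            (by omega) (by omega) (by omega) (by omega) (by omega) ∅ (by simp)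
            (if s = D - 1 then 1 else 0) (by
              rintro ⟨i, hi0, hiτ, hi1, hi2, hi3⟩
              have := hdiag i hi0 hiτ (by omega) (by omega)
              split_ifs with h4
              · exact le_rfl
              · omega)
          simp only [card_empty, add_zero] at this
          omega
        · have hk : kk a D s = s := by
            unfold kk; rw [if_neg (by omega), if_neg (by omega)]
          have hl : ll a D s = s := by
            unfold ll; rw [if_neg (by omega), if_neg (by omega)]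
          rw [hk, hl]
          by_cases hsP : s ≤ P
          · have := LvE.cellE (k := s) (l := s) (s := s) hR hτ0 hτ2 hD hsum hα0 hβ0 (by omega)
              (by omega) (by omega) (by omega) (by omega) (by omega) (by omega) ∅ (by simp) 0 (by
                rintro ⟨i, hi0, hiτ, hi1, hi2, hi3⟩
                have := hdiag i hi0 hiτ (by omega) (by omega)
                omega)
            simp only [card_empty, add_zero] at this
            rw [if_neg (by omega : ¬ (s ≤ α τ ∧ s ≤ β τ))] at this
            omega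
          · rw [lvl_eq_zero hαP (by omega), lvl_eq_zero hβP (by omega)]
            omega) (by
      beta_reduce
      rw [if_pos rfl]
      by_cases hHv : (1 ≤ u ∧ 1 ≤ v ∧ u + v = D)
      · have hH' : H = 1 := by rw [hH, if_pos hHv]
        have hγτ : D ≤ γ τ := by
          have := hτ (by omega) (by omega)
          omega
        by_cases hDP : D ≤ P
        · have := LvE.cellTop hR hτ0 hτ2 hD hsum hα0 hβ0 (s := D) (by omega) hDP (by omega)
            (by omega) {τ} (by
              intro z hz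
              rw [mem_singleton] at hz
              subst hz
              rw [hneg]
              exact ⟨hτ0, by omega, by omega, hγτ, by omega, by omega⟩) (by
              intro i hi0 hiτ hi1 hi2
              have := hdiag i hi0 hiτ (by omega) (by omega)
              omega)
          rw [card_singleton] at this
          omega
        · have := LvE.one_le_lvl hτ0 hγτ
          rw [lvl_eq_zero hαP (by omega), lvl_eq_zero hβP (by omega)]
          omega
      · have hH' : H = 0 := by rw [hH, if_neg hHv]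
        by_cases hDP : D ≤ P
        · have := LvE.cellE (k := D) (l := D) (s := D) hR hτ0 hτ2 hD hsum hα0 hβ0 (by omega)
            (by omega) (by omega) (by omega) (by omega) (by omega) (by omega) ∅ (by simp) 0 (by
              rintro ⟨i, hi0, hiτ, hi1, hi2, hi3⟩
              have := hdiag i hi0 hiτ (by omega) (by omega)
              omega)
          simp only [card_empty, add_zero] at this
          have h5 : ¬ (D ≤ α τ ∧ D ≤ β τ) := by
            rintro ⟨h5, h6⟩
            have := hτ (by omega) (by omega)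
            omega
          rw [if_neg h5] at this
          omega
        · rw [lvl_eq_zero hαP (by omega), lvl_eq_zero hβP (by omega)]
          omega)
  simp only [sum_add_distrib, Finset.sum_ite_eq'] at key
  rw [if_pos (by rw [mem_Icc]; omega : D ∈ Icc 1 (P + 1))] at key
  rw [sum_add_distrib]
  split_ifs at key <;> omega

namespace LvE

variable {R : Type u} [AddCommGroup R] [Fintype R] [DecidableEq R]

/-- The number of points of a given type, except `0` and `τ`. -/
def ntype (τ : R) (α β : R → ℕ) (Q : ℕ → ℕ → Prop) [DecidableRel Q] : ℕ :=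
  (univ.filter (fun i : R => i ≠ 0 ∧ i ≠ τ ∧ Q (α i) (β i))).card

lemma one_le_ntype {τ : R} {α β : R → ℕ} {Q : ℕ → ℕ → Prop} [DecidableRel Q] {i : R}
    (hi : i ≠ 0) (hiτ : i ≠ τ) (h : Q (α i) (β i)) : 1 ≤ ntype τ α β Q :=
  card_pos.2 ⟨i, by rw [mem_filter]; exact ⟨mem_univ _, hi, hiτ, h⟩⟩

lemma ntype_eq (τ : R) (α β : R → ℕ) (Q : ℕ → ℕ → Prop) [DecidableRel Q] :
    ntype τ α β Q = ∑ i : R, if i ≠ 0 ∧ i ≠ τ ∧ Q (α i) (β i) then 1 else 0 := by
  unfold ntype
  rw [card_filter]

lemma lvl_split {τ : R} (hτ0 : τ ≠ 0) (f : R → ℕ) (k : ℕ) :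
    lvl f k = (∑ i : R, if i ≠ 0 ∧ i ≠ τ ∧ k ≤ f i then 1 else 0) +
      (if k ≤ f τ then 1 else 0) := by
  unfold lvl
  rw [card_filter]
  have h : ∀ i : R, (if i ≠ 0 ∧ k ≤ f i then 1 else 0) =
      (if i ≠ 0 ∧ i ≠ τ ∧ k ≤ f i then 1 else 0) +
        (if i = τ then (if k ≤ f τ then 1 else 0) else 0) := by
    intro i
    by_cases hi : i = τ
    · subst hi
      simp [hτ0]
    · simp [hi]
  rw [Finset.sum_congr rfl (fun i _ => h i), sum_add_distrib, Finset.sum_ite_eq']
  simp

end LvE

/-- (LvE1) with the additional hypothesis. -/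
theorem stmt_LvE1p : Stmt_LvE1p.{u} := by
  intro R _ _ _ hR τ hτ0 hτ2 h2 P n α β γ hαP hβP hααP hn hα0 hβ0 hγ0 hP hsum hdiag hτs hτ
  have hneg : -τ = τ := neg_eq_of_add_eq_zero_left hτ2
  obtain ⟨D, hDdef⟩ : ∃ D, D = γ 0 + 2 := ⟨_, rfl⟩
  obtain ⟨u, hu⟩ : ∃ u, u = α τ := ⟨_, rfl⟩
  obtain ⟨v, hv⟩ : ∃ v, v = β τ := ⟨_, rfl⟩
  have hD := LvE.hD_of' h2 hsum (by omega) hDdef
  have hα1 : 1 ≤ α 0 := by omega
  have hβ1 : 1 ≤ β 0 := by omega
  obtain ⟨H2, hH2⟩ : ∃ H : ℕ, H = if (1 ≤ u ∧ 1 ≤ v ∧ u + v = D) then 1 else 0 := ⟨_, rfl⟩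
  obtain ⟨H3, hH3⟩ : ∃ H : ℕ, H = if (u = n ∧ v = n) then 1 else 0 := ⟨_, rfl⟩
  obtain ⟨sst, hsst⟩ : ∃ sst : ℕ, sst = if u < n then u else D - 1 + n - u := ⟨_, rfl⟩
  have hH31 : H3 ≤ 1 := by rw [hH3]; split_ifs <;> omega
  have hcost : ∀ s, 1 ≤ s → s < D →
      (if kk n D s ≤ α τ ∧ ll n D s ≤ β τ then 1 else 0) ≤
        (if s = sst then H2 else 0) + (if s = D - 1 then H3 else 0) +
          (if s = n - 1 then H3 else 0) := by
    intro s hs1 hsD
    rw [← hu, ← hv]
    have hτ' : 1 ≤ u → 1 ≤ v → u + v ≤ D ∨ (u = n ∧ v = n) := by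
      intro h1 h3
      have := hτ (by omega) (by omega)
      omega
    by_cases hcase : kk n D s ≤ u ∧ ll n D s ≤ v
    · rw [if_pos hcase]
      obtain ⟨h3, h4⟩ := hcase
      have h5 : (s = sst ∧ 1 ≤ u ∧ 1 ≤ v ∧ u + v = D) ∨
          ((s = D - 1 ∨ s = n - 1) ∧ u = n ∧ v = n) := by
        rw [hsst]
        unfold kk at h3
        unfold ll at h4
        split_ifs at h3 h4 ⊢ <;> omega
      rcases h5 with h5 | ⟨h5 | h5, h6⟩
      · rw [if_pos h5.1, hH2, if_pos h5.2]
        omega
      · rw [if_pos h5, hH3, if_pos h6]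
        omega
      · rw [if_pos h5, hH3, if_pos h6]
        omega
    · rw [if_neg hcase]
      exact Nat.zero_le _
  have hH3τ : (if n ≤ α τ ∧ n ≤ β τ then 1 else 0) ≤ H3 := by
    split_ifs with h
    · have h5 : u = n ∧ v = n := by
        have := hτ (by omega) (by omega)
        omega
      rw [hH3, if_pos h5]
    · exact Nat.zero_le _
  have hH3γ : H3 = 1 → u = n ∧ v = n ∧ 2 * n ≤ γ τ := by
    intro h
    rw [hH3] at h
    split_ifs at h with h5
    refine ⟨h5.1, h5.2, by omega⟩
  -- levels above `D`, except the level `2 n`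
  have hhigh : ∀ s, D < s → lvl α s + lvl β s ≤ lvl γ s := by
    intro s hs
    by_cases hsP : s ≤ P
    · have := LvE.cellE (k := s) (l := s) (s := s) hR hτ0 hτ2 hD hsum hα1 hβ1 (by omega)
        (by omega) (by omega) (by omega) (by omega) (by omega) (by omega) ∅ (by simp) 0 (by
          rintro ⟨i, hi0, hiτ, hi1, hi2, hi3⟩
          have := hdiag i hi0 hiτ (by omega) (by omega)
          omega)
      simp only [card_empty, add_zero] at this
      have h5 : ¬ (s ≤ α τ ∧ s ≤ β τ) := by
        rintro ⟨h5, h6⟩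
        have := hτ (by omega) (by omega)
        omega
      rw [if_neg h5] at this
      omega
    · rw [lvl_eq_zero hαP (by omega), lvl_eq_zero hβP (by omega)]
      omega
  -- the level `2 n`
  have htop : ∀ x : ℕ, (x = 0 ∨ (x = 1 ∧ 2 * n ≤ P ∧ ∃ i, i ≠ 0 ∧ i ≠ τ ∧ 1 ≤ α i ∧
      α i < 2 * n ∧ 2 * n ≤ γ i ∧ β i < 2 * n ∧ β (-i) < 2 * n)) →
      lvl α (2 * n) + lvl β (2 * n) + (H3 + x) ≤ lvl γ (2 * n) := by
    intro x hx
    have hlow : 2 * n ≤ P → α τ < 2 * n ∧ β τ < 2 * n ∨ H3 = 0 := by
      intro _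
      by_cases h5 : u = n ∧ v = n
      · left; omega
      · right; rw [hH3, if_neg h5]
    rcases hx with rfl | ⟨rfl, hnP, i, hi0, hiτ, hi1, hi2, hi3, hi4, hi5⟩
    · by_cases h5 : u = n ∧ v = n
      · have hH : H3 = 1 := by rw [hH3, if_pos h5]
        have h6 := (hH3γ hH).2.2
        by_cases hnP : 2 * n ≤ P
        · have := LvE.cellTop hR hτ0 hτ2 hD hsum hα1 hβ1 (s := 2 * n) (by omega) hnP (by omega)
            (by omega) {τ} (by
              intro z hz
              rw [mem_singleton] at hz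
              subst hz
              rw [hneg]
              exact ⟨hτ0, by omega, by omega, h6, by omega, by omega⟩) (by
              intro i hi0 hiτ hi1 hi2
              have := hdiag i hi0 hiτ (by omega) (by omega)
              omega)
          rw [card_singleton] at this
          omega
        · have := LvE.one_le_lvl hτ0 h6
          rw [lvl_eq_zero hαP (by omega), lvl_eq_zero hβP (by omega)]
          omega
      · have hH : H3 = 0 := by rw [hH3, if_neg h5]
        have := hhigh (2 * n) (by omega)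
        omega
    · by_cases h5 : u = n ∧ v = n
      · have hH : H3 = 1 := by rw [hH3, if_pos h5]
        have h6 := (hH3γ hH).2.2
        have := LvE.cellTop hR hτ0 hτ2 hD hsum hα1 hβ1 (s := 2 * n) (by omega) hnP (by omega)
            (by omega) {τ, i} (by
              intro z hz
              rw [mem_insert, mem_singleton] at hz
              rcases hz with rfl | rfl
              · rw [hneg]
                exact ⟨hτ0, by omega, by omega, h6, by omega, by omega⟩
              · exact ⟨hi0, hi1, hi2, hi3, hi4, hi5⟩) (by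
              intro i hi0 hiτ hi1 hi2
              have := hdiag i hi0 hiτ (by omega) (by omega)
              omega)
        rw [card_pair (Ne.symm hiτ)] at this
        omega
      · have hH : H3 = 0 := by rw [hH3, if_neg h5]
        have h7 : ¬ (2 * n ≤ α τ ∧ 2 * n ≤ β τ) := by
          rintro ⟨h7, h8⟩
          have := hτ (by omega) (by omega)
          omega
        have := LvE.cellTop hR hτ0 hτ2 hD hsum hα1 hβ1 (s := 2 * n) (by omega) hnP (by omega)
            h7 {i} (by
              intro z hz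
              rw [mem_singleton] at hz
              subst hz
              exact ⟨hi0, hi1, hi2, hi3, hi4, hi5⟩) (by
              intro i hi0 hiτ hi1 hi2
              have := hdiag i hi0 hiτ (by omega) (by omega)
              omega)
        rw [card_singleton] at this
        omega
  -- heavy points
  have hτpay : H2 + 3 * H3 + ((if D ≤ α τ then 1 else 0) + (if D ≤ β τ then 1 else 0)) ≤
      ((if n ≤ α τ then 1 else 0) + (if n ≤ β τ then 1 else 0)) + H3 := by
    rw [hH2, hH3, ← hu, ← hv]
    split_ifs <;> omega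
  -- conclusion from the costs
  have finish : ∀ (c0 g0 : ℕ → ℕ) (N0 G0 : ℕ), ∑ s ∈ Icc 1 (P + 1), c0 s = N0 →
      ∑ s ∈ Icc 1 (P + 1), g0 s = G0 →
      N0 + (∑ i : R, if i ≠ 0 ∧ i ≠ τ ∧ D ≤ α i then 1 else 0) +
        (∑ i : R, if i ≠ 0 ∧ i ≠ τ ∧ D ≤ β i then 1 else 0) ≤
      (∑ i : R, if i ≠ 0 ∧ i ≠ τ ∧ n ≤ α i then 1 else 0) +
        (∑ i : R, if i ≠ 0 ∧ i ≠ τ ∧ n ≤ β i then 1 else 0) + G0 →
      (∀ s, 1 ≤ s → s < D → lvl α (kk n D s) + lvl β (ll n D s) + g0 s ≤ lvl γ s + c0 s +
        (if kk n D s ≤ α τ ∧ ll n D s ≤ β τ then 1 else 0)) →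
      (lvl α n + lvl β n + g0 D ≤ lvl γ D + c0 D + (if n ≤ α τ ∧ n ≤ β τ then 1 else 0)) →
      (g0 (2 * n) = 0 ∨ (g0 (2 * n) = 1 ∧ 2 * n ≤ P ∧ ∃ i, i ≠ 0 ∧ i ≠ τ ∧ 1 ≤ α i ∧
        α i < 2 * n ∧ 2 * n ≤ γ i ∧ β i < 2 * n ∧ β (-i) < 2 * n)) →
      (∀ s, 2 * n < s → g0 s = 0) →
      ∑ i ∈ univ.erase 0, (α i + β i) ≤ ∑ i ∈ univ.erase 0, γ i := by
    intro c0 g0 N0 G0 hN0 hG0 hpay hlow hDlev hg2 hg3
    have key := LvE.level_sum (α := α) (β := β) (γ := γ) (N := P + 1) (D := D) (a := n) (a' := n)
      (b' := n) (fun i => (hαP i).trans (Nat.le_succ P)) (fun i => (hβP i).trans (Nat.le_succ P))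
      (by omega) (by omega) (by omega)
      (fun s => c0 s + ((if s = sst then H2 else 0) + (if s = D - 1 then H3 else 0) +
        (if s = n - 1 then H3 else 0) + (if s = D then H3 else 0)))
      (fun s => g0 s + (if s = 2 * n then H3 else 0)) (by
        intro s hs hsD
        rw [mem_Icc] at hs
        beta_reduce
        rcases lt_or_ge s D with h3 | h3
        · have h4 := hlow s hs.1 h3
          have h5 := hcost s hs.1 h3
          rw [if_neg (by omega : ¬ s = 2 * n), if_neg hsD]
          omega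
        · have hk : kk n D s = s := by
            unfold kk; rw [if_neg (by omega), if_neg (by omega)]
          have hl : ll n D s = s := by
            unfold ll; rw [if_neg (by omega), if_neg (by omega)]
          rw [hk, hl]
          by_cases hs2 : s = 2 * n
          · have := htop (g0 (2 * n)) hg2
            rw [if_pos hs2, hs2]
            omega
          · rw [if_neg hs2, hg3 s (by omega)]
            have := hhigh s (by omega)
            omega) (by
        beta_reduce
        rw [if_neg (by omega : ¬ D = 2 * n), if_pos (rfl : D = D)]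
        omega)
    simp only [sum_add_distrib, Finset.sum_ite_eq', hN0, hG0] at key
    rw [if_pos (by rw [mem_Icc]; omega : D ∈ Icc 1 (P + 1)),
      if_pos (by rw [mem_Icc]; omega : D - 1 ∈ Icc 1 (P + 1)),
      if_pos (by rw [mem_Icc]; omega : n - 1 ∈ Icc 1 (P + 1)),
      if_pos (by rw [mem_Icc]; omega : 2 * n ∈ Icc 1 (P + 1)),
      LvE.lvl_split hτ0 α n, LvE.lvl_split hτ0 β n, LvE.lvl_split hτ0 α D,
      LvE.lvl_split hτ0 β D] at key
    have hH2' : (if sst ∈ Icc 1 (P + 1) then H2 else 0) ≤ H2 := by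
      split_ifs
      · exact le_rfl
      · exact Nat.zero_le _
    rw [sum_add_distrib]
    omega
  by_cases hn3 : 3 ≤ n
  · -- main case
    refine finish
      (fun s => (if s = D - 2 then LvE.ntype τ α β (fun u v => u = n + 1 ∧ v + 2 = n) else 0) +
        (if s = D - 1 then LvE.ntype τ α β (fun u v => (u = n ∧ v + 1 = n) ∨
          (u = n + 1 ∧ v + 1 = n) ∨ (u = n ∧ v = n)) else 0) +
        (if s = D then LvE.ntype τ α β (fun u v => (u = n ∧ v = n) ∨ (u = n + 1 ∧ v = n) ∨
          (u = n ∧ v = n + 1)) else 0))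
      (fun _ => 0)
      (LvE.ntype τ α β (fun u v => u = n + 1 ∧ v + 2 = n) +
        LvE.ntype τ α β (fun u v => (u = n ∧ v + 1 = n) ∨
          (u = n + 1 ∧ v + 1 = n) ∨ (u = n ∧ v = n)) +
        LvE.ntype τ α β (fun u v => (u = n ∧ v = n) ∨ (u = n + 1 ∧ v = n) ∨
          (u = n ∧ v = n + 1))) 0 ?_ (by simp) ?_ ?_ ?_ (Or.inl rfl) (fun _ _ => rfl)
    · simp only [sum_add_distrib, Finset.sum_ite_eq']
      rw [if_pos (by rw [mem_Icc]; omega : D ∈ Icc 1 (P + 1)),
        if_pos (by rw [mem_Icc]; omega : D - 1 ∈ Icc 1 (P + 1)),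
        if_pos (by rw [mem_Icc]; omega : D - 2 ∈ Icc 1 (P + 1))]
    · rw [LvE.ntype_eq, LvE.ntype_eq, LvE.ntype_eq, ← sum_add_distrib, ← sum_add_distrib,
        ← sum_add_distrib, ← sum_add_distrib, ← sum_add_distrib, add_zero]
      apply Finset.sum_le_sum
      intro i _
      by_cases hi : i = 0
      · simp [hi]
      · by_cases hi' : i = τ
        · simp [hi']
        · simp only [hi, hi', ne_eq, not_false_eq_true, true_and]
          generalize α i = x
          generalize β i = y
          split_ifs <;> omega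
    · intro s hs1 hs2
      beta_reduce
      rcases lt_or_ge s n with h1 | h1
      · have hk : kk n D s = s := by unfold kk; rw [if_pos h1]
        have hl : ll n D s = D - s := by unfold ll; rw [if_pos h1]
        rw [hk, hl]
        have := LvE.cellE (k := s) (l := D - s) (s := s) hR hτ0 hτ2 hD hsum hα1 hβ1 (by omega)
          (by omega) (by omega) (by omega) (by omega) (by omega) (by omega) ∅ (by simp) 0 (by
            rintro ⟨i, hi0, hiτ, hi1, hi2, hi3⟩
            have := hdiag i hi0 hiτ (by omega) (by omega)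
            omega)
        simp only [card_empty, add_zero] at this
        omega
      · have hk : kk n D s = D - 1 + n - s := by
          unfold kk; rw [if_neg (by omega), if_pos hs2]
        have hl : ll n D s = s + 1 - n := by
          unfold ll; rw [if_neg (by omega), if_pos hs2]
        rw [hk, hl]
        have := LvE.cellE (k := D - 1 + n - s) (l := s + 1 - n) (s := s) hR hτ0 hτ2 hD hsum
          hα1 hβ1 (by omega) (by omega)
          (by omega) (by omega) (by omega) (by omega) (by omega) ∅ (by simp)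
          ((if s = D - 2 then LvE.ntype τ α β (fun u v => u = n + 1 ∧ v + 2 = n) else 0) +
            (if s = D - 1 then LvE.ntype τ α β (fun u v => (u = n ∧ v + 1 = n) ∨
              (u = n + 1 ∧ v + 1 = n) ∨ (u = n ∧ v = n)) else 0)) (by
            rintro ⟨i, hi0, hiτ, hi1, hi2, hi3⟩
            have := hdiag i hi0 hiτ (by omega) (by omega)
            rcases (show s = D - 2 ∨ s = D - 1 by omega) with h4 | h4
            · rw [if_pos h4]
              have := LvE.one_le_ntype (α := α) (β := β)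
                (Q := fun u v => u = n + 1 ∧ v + 2 = n) hi0 hiτ (by omega)
              omega
            · rw [if_neg (by omega), if_pos h4]
              have := LvE.one_le_ntype (α := α) (β := β)
                (Q := fun u v => (u = n ∧ v + 1 = n) ∨
              (u = n + 1 ∧ v + 1 = n) ∨ (u = n ∧ v = n)) hi0 hiτ (by omega)
              omega)
        simp only [card_empty, add_zero] at this
        omega
    · beta_reduce
      rw [if_pos (rfl : D = D)]
      have := LvE.cellE (k := n) (l := n) (s := D) hR hτ0 hτ2 hD hsum hα1 hβ1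
          (by omega) (by omega)
          (by omega) (by omega) (by omega) (by omega) (by omega) ∅ (by simp)
          (LvE.ntype τ α β (fun u v => (u = n ∧ v = n) ∨ (u = n + 1 ∧ v = n) ∨
            (u = n ∧ v = n + 1)))
          (by
            rintro ⟨i, hi0, hiτ, hi1, hi2, hi3⟩
            have := hdiag i hi0 hiτ (by omega) (by omega)
            exact LvE.one_le_ntype (α := α) (β := β)
              (Q := fun u v => (u = n ∧ v = n) ∨ (u = n + 1 ∧ v = n) ∨
                (u = n ∧ v = n + 1)) hi0 hiτ (by omega))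
      simp only [card_empty, add_zero] at this
      omega
  · -- the case n = 2, D = 3
    have hn2 : n = 2 := by omega
    subst hn2
    have hD3 : D = 3 := by omega
    subst hD3
    obtain ⟨x, hx⟩ : ∃ x : ℕ, x = if (∃ i : R, i ≠ 0 ∧ i ≠ τ ∧ α i = 3 ∧ β i = 1 ∧
      γ (i + i) < 2) then 1 else 0 := ⟨_, rfl⟩
    obtain ⟨N1, hN1⟩ : ∃ N : ℕ, N = LvE.ntype τ α β (fun u v => u = 1 ∧ v = 2) := ⟨_, rfl⟩
    obtain ⟨N2, hN2⟩ : ∃ N : ℕ, N = LvE.ntype τ α β (fun u v => (u = 2 ∧ v = 1) ∨
      (u = 2 ∧ v = 2)) := ⟨_, rfl⟩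
    obtain ⟨N3, hN3⟩ : ∃ N : ℕ, N = LvE.ntype τ α β (fun u v => (u = 2 ∧ v = 2) ∨
      (u = 3 ∧ v = 2) ∨ (u = 2 ∧ v = 3)) := ⟨_, rfl⟩
    have hL1' : ∀ i : R, i ≠ 0 → i ≠ τ → α i = 3 → β i = 1 → γ (i + i) < 2 → P = 3 →
        lvl α 1 + lvl β 2 + 1 ≤ lvl γ 1 + N1 + (if 1 ≤ α τ ∧ 2 ≤ β τ then 1 else 0) := by
      intro i hi0 hiτ hiα hiβ hiγ hP3
      have hγ1 : γ (i + i) = 1 := by
        have := hdiag i hi0 hiτ (by omega) (by omega)
        omega
      have := LvE.cellE (k := 1) (l := 2) (s := 1) hR hτ0 hτ2 hD hsum hα1 hβ1 (by omega)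
        (by omega) (by omega) (by omega) (by omega) (by omega) (by omega) {i + i} (by
          intro t ht
          rw [mem_singleton] at ht
          subst ht
          refine ⟨fun h => ?_, by omega, ?_⟩
          · rcases h2 i h with h3 | h3
            · exact hi0 h3
            · exact hiτ h3
          intro hmem
          rw [mem_add] at hmem
          obtain ⟨u, hu, v, hv, huv⟩ := hmem
          rw [mem_lset] at hu hv
          by_cases huv' : u = v
          · subst huv'
            have h5 : (u - i) + (u - i) = 0 := by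
              have : (u - i) + (u - i) = (u + u) - (i + i) := by abel
              rw [this, huv, sub_self]
            rcases h2 _ h5 with h6 | h6
            · have hui : u = i := sub_eq_zero.1 h6
              subst hui
              have := hv.resolve_left hi0
              omega
            · have hui : u = i + τ := by rw [← h6]; abel
              have hu0 : u ≠ 0 := by
                rintro rfl
                apply hiτ
                have : i = -τ := eq_neg_of_add_eq_zero_left hui.symm
                rw [this, hneg]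
              have hu1 := hu.resolve_left hu0
              have := hααP i
              rw [← hui] at this
              omega
          · have hu1 : 1 ≤ α u := by
              rcases hu with hu | hu
              · rw [hu]; omega
              · exact hu
            have hv1 : 2 ≤ β v := by
              rcases hv with hv | hv
              · rw [hv]; omega
              · exact hv
            have := hsum u v huv' hu1 (by omega)
            rw [huv] at this
            omega) N1 (by
          rintro ⟨j, hj0, hjτ, hj1, hj2, hj3⟩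
          have := hdiag j hj0 hjτ (by omega) (by omega)
          rw [hN1]
          exact LvE.one_le_ntype (α := α) (β := β)
            (Q := fun u v => u = 1 ∧ v = 2) hj0 hjτ (by omega))
      rw [card_singleton] at this
      exact this
    have hL1 : lvl α 1 + lvl β 2 ≤ lvl γ 1 + N1 + (if 1 ≤ α τ ∧ 2 ≤ β τ then 1 else 0) := by
      have := LvE.cellE (k := 1) (l := 2) (s := 1) hR hτ0 hτ2 hD hsum hα1 hβ1 (by omega)
        (by omega) (by omega) (by omega) (by omega) (by omega) (by omega) ∅ (by simp) N1 (by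
          rintro ⟨j, hj0, hjτ, hj1, hj2, hj3⟩
          have := hdiag j hj0 hjτ (by omega) (by omega)
          rw [hN1]
          exact LvE.one_le_ntype (α := α) (β := β)
            (Q := fun u v => u = 1 ∧ v = 2) hj0 hjτ (by omega))
      rw [card_empty] at this
      exact this
    have hL2 : lvl α 2 + lvl β 1 ≤ lvl γ 2 + (N2 + x) +
        (if 2 ≤ α τ ∧ 1 ≤ β τ then 1 else 0) := by
      have := LvE.cellE (k := 2) (l := 1) (s := 2) hR hτ0 hτ2 hD hsum hα1 hβ1 (by omega)
        (by omega) (by omega) (by omega) (by omega) (by omega) (by omega) ∅ (by simp)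
        (N2 + x) (by
          rintro ⟨j, hj0, hjτ, hj1, hj2, hj3⟩
          have := hdiag j hj0 hjτ (by omega) (by omega)
          by_cases h31 : α j = 3 ∧ β j = 1
          · rw [if_pos ⟨j, hj0, hjτ, h31.1, h31.2, hj3⟩] at hx
            omega
          · have h6 := LvE.one_le_ntype (τ := τ) (α := α) (β := β)
              (Q := fun u v => (u = 2 ∧ v = 1) ∨ (u = 2 ∧ v = 2)) hj0 hjτ (by omega)
            rw [hN2]
            omega)
      rw [card_empty] at this
      exact this
    have hL3 : lvl α 2 + lvl β 2 ≤ lvl γ 3 + N3 + (if 2 ≤ α τ ∧ 2 ≤ β τ then 1 else 0) := by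
      have := LvE.cellE (k := 2) (l := 2) (s := 3) hR hτ0 hτ2 hD hsum hα1 hβ1 (by omega)
        (by omega) (by omega) (by omega) (by omega) (by omega) (by omega) ∅ (by simp) N3 (by
          rintro ⟨j, hj0, hjτ, hj1, hj2, hj3⟩
          have := hdiag j hj0 hjτ (by omega) (by omega)
          rw [hN3]
          exact LvE.one_le_ntype (α := α) (β := β)
            (Q := fun u v => (u = 2 ∧ v = 2) ∨ (u = 3 ∧ v = 2) ∨ (u = 2 ∧ v = 3)) hj0 hjτ
            (by omega))
      rw [card_empty] at this
      exact this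
    have hpay : N1 + (N2 + x) + N3 + (∑ i : R, if i ≠ 0 ∧ i ≠ τ ∧ 3 ≤ α i then 1 else 0) +
        (∑ i : R, if i ≠ 0 ∧ i ≠ τ ∧ 3 ≤ β i then 1 else 0) ≤
      (∑ i : R, if i ≠ 0 ∧ i ≠ τ ∧ 2 ≤ α i then 1 else 0) +
        (∑ i : R, if i ≠ 0 ∧ i ≠ τ ∧ 2 ≤ β i then 1 else 0) + x := by
      have : N1 + N2 + N3 + (∑ i : R, if i ≠ 0 ∧ i ≠ τ ∧ 3 ≤ α i then 1 else 0) +
          (∑ i : R, if i ≠ 0 ∧ i ≠ τ ∧ 3 ≤ β i then 1 else 0) ≤
        (∑ i : R, if i ≠ 0 ∧ i ≠ τ ∧ 2 ≤ α i then 1 else 0) +
          (∑ i : R, if i ≠ 0 ∧ i ≠ τ ∧ 2 ≤ β i then 1 else 0) := by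
        rw [hN1, hN2, hN3, LvE.ntype_eq, LvE.ntype_eq, LvE.ntype_eq, ← sum_add_distrib,
          ← sum_add_distrib, ← sum_add_distrib, ← sum_add_distrib, ← sum_add_distrib]
        apply Finset.sum_le_sum
        intro i _
        by_cases hi : i = 0
        · simp [hi]
        · by_cases hi' : i = τ
          · simp [hi']
          · simp only [hi, hi', ne_eq, not_false_eq_true, true_and]
            generalize α i = y
            generalize β i = z
            split_ifs <;> omega
      omega
    have hx1 : x = 0 ∨ x = 1 := by rw [hx]; split_ifs <;> simp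
    have hP3 : 3 ≤ P := by omega
    refine finish
      (fun s => (if s = 1 then N1 else 0) + (if s = 2 then N2 + x else 0) +
        (if s = 3 then N3 else 0))
      (fun s => if s = (if P = 3 then 1 else 4) then x else 0)
      (N1 + (N2 + x) + N3) x ?_ ?_ hpay ?_ ?_ ?_ ?_
    · simp only [sum_add_distrib, Finset.sum_ite_eq']
      rw [if_pos (by rw [mem_Icc]; omega : 1 ∈ Icc 1 (P + 1)),
        if_pos (by rw [mem_Icc]; omega : 2 ∈ Icc 1 (P + 1)),
        if_pos (by rw [mem_Icc]; omega : 3 ∈ Icc 1 (P + 1))]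
    · rw [Finset.sum_ite_eq', if_pos]
      rw [mem_Icc]
      split_ifs <;> omega
    · intro s hs1 hs2
      beta_reduce
      rcases (show s = 1 ∨ s = 2 by omega) with rfl | rfl
      · have hk : kk 2 3 1 = 1 := by unfold kk; rw [if_pos (by omega)]
        have hl : ll 2 3 1 = 2 := by unfold ll; rw [if_pos (by omega)]
        rw [hk, hl, if_pos rfl, if_neg (by omega : ¬ (1 : ℕ) = 2),
          if_neg (by omega : ¬ (1 : ℕ) = 3)]
        by_cases hP : P = 3
        · rw [if_pos hP, if_pos rfl]
          by_cases hex : ∃ i : R, i ≠ 0 ∧ i ≠ τ ∧ α i = 3 ∧ β i = 1 ∧ γ (i + i) < 2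
          · rw [if_pos hex] at hx
            obtain ⟨i, hi0, hiτ, hiα, hiβ, hiγ⟩ := hex
            have := hL1' i hi0 hiτ hiα hiβ hiγ hP
            omega
          · rw [if_neg hex] at hx
            omega
        · rw [if_neg hP, if_neg (by omega : ¬ (1 : ℕ) = 4)]
          omega
      · have hk : kk 2 3 2 = 2 := by
          unfold kk; rw [if_neg (by omega), if_pos (by omega)]
        have hl : ll 2 3 2 = 1 := by
          unfold ll; rw [if_neg (by omega), if_pos (by omega)]
        have h5 : ¬ (2 = (if P = 3 then 1 else 4)) := by split_ifs <;> omega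
        rw [hk, hl, if_neg h5, if_neg (by omega : ¬ (2 : ℕ) = 1), if_pos rfl,
          if_neg (by omega : ¬ (2 : ℕ) = 3)]
        omega
    · beta_reduce
      have h5 : ¬ (3 = (if P = 3 then 1 else 4)) := by split_ifs <;> omega
      rw [if_neg h5, if_neg (by omega : ¬ (3 : ℕ) = 1), if_neg (by omega : ¬ (3 : ℕ) = 2),
        if_pos rfl]
      omega
    · beta_reduce
      by_cases hP : P = 3
      · left
        rw [if_pos hP, if_neg (by omega)]
      · rw [if_neg hP, if_pos (by omega)]
        rcases hx1 with h6 | h6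
        · left; exact h6
        · right
          refine ⟨h6, by omega, ?_⟩
          rw [h6] at hx
          split_ifs at hx with hex
          obtain ⟨i, hi0, hiτ, hiα, hiβ, hiγ⟩ := hex
          have h7 := hsum i 0 hi0 (by omega) (by omega)
          rw [add_zero] at h7
          have h8 : β (-i) = 0 := by
            by_contra h9
            have := hD i hi0 hiτ (by omega) (by omega)
            omega
          exact ⟨i, hi0, hiτ, by omega, by omega, by omega, by omega, by omega⟩
    · intro s hs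
      beta_reduce
      rw [if_neg]
      split_ifs <;> omega

end Pool.Agent.Work.MP_59976d_co
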