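import Pool.Agent.Work.MP_59976d_co_even.Basic
import Pool.Agent.Work.MP_59976d_co_even.Interface
import Pool.Agent.Work.MP_59976d_co_odd.KN
import Pool.Agent.Work.MP_59976d_co_odd.SC

/-!
Block S3: a lost sum with two representations (chain of quotients).
-/

namespace Pool.Agent.Work.MP_59976d_co

open Finset
open scoped Pointwise

universe u

namespace S3

section kneser
variable {G : Type u} [AddCommGroup G] [Finite G] [DecidableEq G]

/-- the elements of a subgroup -/
noncomputable def el (H : AddSubgroup G) : Finset G := (Set.toFinite (H : Set G)).toFinset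

omit [DecidableEq G] in
lemma mem_el {H : AddSubgroup G} {x : G} : x ∈ el H ↔ x ∈ H := by
  unfold el
  simp

omit [DecidableEq G] in
lemma card_el (H : AddSubgroup G) : (el H).card = Nat.card H :=
  (Nat.card_eq_card_finite_toFinset (Set.toFinite (H : Set G))).symm

lemma hull_coset (H : AddSubgroup G) (X : Finset G) (x : G) (hx : x ∈ X) :
    X.card + Nat.card H ≤ (hull H X).card + ((el H).filter (fun h => x + h ∈ X)).card := by
  have h1 : (el H).card = ((el H).filter (fun h => x + h ∈ X)).card +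
      ((el H).filter (fun h => ¬ (x + h ∈ X))).card :=
    (card_filter_add_card_filter_not (p := fun h => x + h ∈ X)).symm
  rw [card_el] at h1
  have h2 : ((el H).filter (fun h => ¬ (x + h ∈ X))).card ≤ (hull H X \ X).card := by
    rw [← card_image_add ((el H).filter (fun h => ¬ (x + h ∈ X))) x]
    apply card_le_card
    intro y hy
    rw [mem_image] at hy
    obtain ⟨h, hh, rfl⟩ := hy
    rw [mem_filter, mem_el] at hh
    exact mem_sdiff.2 ⟨mem_hull.2 ⟨x, hx, by rw [add_sub_cancel_left]; exact hh.1⟩, hh.2⟩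
  have h3 : (hull H X \ X).card + X.card = (hull H X).card :=
    card_sdiff_add_card_eq_card (subset_hull H X)
  omega

/-- Kneser's theorem in the coset of a representation -/
lemma kneser_coset (X Y : Finset G) (x y : G) (hx : x ∈ X) (hy : y ∈ Y) :
    ∃ H : AddSubgroup G, (∀ h : G, h ∈ H ↔ ∀ z ∈ X + Y, h + z ∈ X + Y) ∧
      X.card + Y.card ≤ (X + Y).card +
        ((el H).filter (fun h => x + h ∈ X ∧ y - h ∈ Y)).card := by
  obtain ⟨H, hH, hK⟩ := stmt_kneser G X Y ⟨x, hx⟩ ⟨y, hy⟩
  refine ⟨H, hH, ?_⟩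
  have h1 := hull_coset H X x hx
  have h2 := hull_coset H Y y hy
  have h3 : ((el H).filter (fun h => y + h ∈ Y)).card = ((el H).filter (fun h => y - h ∈ Y)).card := by
    apply card_bij (fun h _ => -h)
    · intro h hh
      rw [mem_filter, mem_el] at hh ⊢
      exact ⟨H.neg_mem hh.1, by rw [sub_neg_eq_add]; exact hh.2⟩
    · intro a _ b _ hab
      exact neg_injective hab
    · intro h hh
      rw [mem_filter, mem_el] at hh
      exact ⟨-h, by rw [mem_filter, mem_el]; exact ⟨H.neg_mem hh.1, by rw [← sub_eq_add_neg]; exact hh.2⟩,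
        neg_neg h⟩
  have h4 : ((el H).filter (fun h => x + h ∈ X)).card + ((el H).filter (fun h => y - h ∈ Y)).card ≤
      Nat.card H + ((el H).filter (fun h => x + h ∈ X ∧ y - h ∈ Y)).card := by
    rw [← card_union_add_card_inter, ← filter_and, ← card_el H]
    apply Nat.add_le_add_right
    apply card_le_card
    exact union_subset (filter_subset _ _) (filter_subset _ _)
  omega

end kneser

/-- The hypotheses of the chain lemma. -/
structure Chain {Q : Type u} [AddCommGroup Q] (A B C : Finset Q) (W : AddSubgroup Q) (x : Q) :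
    Prop where
  a : ∀ c ∈ A, ∀ b ∈ B, c ≠ b → c + b ∈ C
  b0 : (0 : Q) ∈ B
  bs : ∀ c ∈ A, ∀ b ∈ B, c + b ≠ 0
  c2 : ∀ w ∈ W, w + w = 0
  cC : ∀ w ∈ W, w ≠ 0 → w ∈ C
  xA : x ∈ A
  xB : x ∈ B
  xl : x + x ∉ C
  rep : ∀ c ∈ A, ∀ b ∈ B, c + b = x + x → c = b ∧ c - x ∈ W
  eA : ∀ w ∈ W, w ∉ A
  eB : ∀ w ∈ W, w ∈ B → w = 0

section step

variable {Q : Type u} [AddCommGroup Q] [Finite Q] {τ : Q}

lemma ex1 (h2 : τ + τ = 0) {A : Finset Q} {i : Q ⧸ AddSubgroup.zmultiples τ} (hi : i ∈ L1 τ A) :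
    ∃ a ∈ A, (QuotientAddGroup.mk a : Q ⧸ AddSubgroup.zmultiples τ) = i := by
  obtain ⟨x, rfl⟩ := QuotientAddGroup.mk_surjective i
  rcases (mk_mem_L1 h2).1 hi with h | h
  · exact ⟨x, h, rfl⟩
  · exact ⟨x + τ, h, (mk_eq_iff_two h2).2 (Or.inr (by rw [add_assoc, h2, add_zero]))⟩

lemma in1 (h2 : τ + τ = 0) {A : Finset Q} {a : Q} (ha : a ∈ A) :
    (QuotientAddGroup.mk a : Q ⧸ AddSubgroup.zmultiples τ) ∈ L1 τ A :=
  (mk_mem_L1 h2).2 (Or.inl ha)

lemma mk_add_tau (h2 : τ + τ = 0) (x : Q) :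
    (QuotientAddGroup.mk (x + τ) : Q ⧸ AddSubgroup.zmultiples τ) = QuotientAddGroup.mk x :=
  (mk_eq_iff_two h2).2 (Or.inr (by rw [add_assoc, h2, add_zero]))

lemma chain_step {A B C : Finset Q} {W : AddSubgroup Q} {x : Q} (hc : Chain A B C W x)
    (hτ : τ ∈ W) (h0 : τ ≠ 0) (hx : x + τ ∈ A) :
    Chain (L2 τ A) (L1 τ B) (L2 τ C) (W.map (QuotientAddGroup.mk' (AddSubgroup.zmultiples τ)))
      (QuotientAddGroup.mk x) := by
  have h2 : τ + τ = 0 := hc.c2 τ hτ
  have hmap : ∀ i, i ∈ W.map (QuotientAddGroup.mk' (AddSubgroup.zmultiples τ)) →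
      ∃ w ∈ W, (QuotientAddGroup.mk w : Q ⧸ AddSubgroup.zmultiples τ) = i := by
    rintro _ ⟨w, hw, rfl⟩
    exact ⟨w, hw, rfl⟩
  refine ⟨?_, in1 h2 hc.b0, ?_, ?_, ?_, ?_, in1 h2 hc.xB, ?_, ?_, ?_, ?_⟩
  · intro i hi j hj hne
    obtain ⟨a, rfl⟩ := QuotientAddGroup.mk_surjective i
    obtain ⟨b, hb, rfl⟩ := ex1 h2 hj
    obtain ⟨ha1, ha2⟩ := (mk_mem_L2 h0 h2).1 hi
    rw [← QuotientAddGroup.mk_add, mk_mem_L2 h0 h2]
    constructor
    · exact hc.a a ha1 b hb (fun h => hne (by rw [h]))
    · have := hc.a (a + τ) ha2 b hb (fun h => hne (by rw [← h, mk_add_tau h2]))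
      rw [add_right_comm] at this
      exact this
  · intro i hi j hj h
    obtain ⟨a, rfl⟩ := QuotientAddGroup.mk_surjective i
    obtain ⟨b, hb, rfl⟩ := ex1 h2 hj
    obtain ⟨ha1, ha2⟩ := (mk_mem_L2 h0 h2).1 hi
    rw [← QuotientAddGroup.mk_add, QuotientAddGroup.eq_zero_iff, mem_zm h2] at h
    rcases h with h | h
    · exact hc.bs a ha1 b hb h
    · apply hc.bs (a + τ) ha2 b hb
      rw [add_right_comm, h, h2]
  · intro i hi
    obtain ⟨w, hw, rfl⟩ := hmap i hi
    rw [← QuotientAddGroup.mk_add, hc.c2 w hw]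
    rfl
  · intro i hi hi0
    obtain ⟨w, hw, rfl⟩ := hmap i hi
    rw [mk_mem_L2 h0 h2]
    have hw0 : w ≠ 0 := fun h => hi0 (by rw [h]; rfl)
    have hw1 : w + τ ≠ 0 := by
      intro h
      apply hi0
      rw [← mk_add_tau h2, h]
      rfl
    exact ⟨hc.cC w hw hw0, hc.cC (w + τ) (W.add_mem hw hτ) hw1⟩
  · exact (mk_mem_L2 h0 h2).2 ⟨hc.xA, hx⟩
  · rw [← QuotientAddGroup.mk_add, mk_mem_L2 h0 h2]
    exact fun h => hc.xl h.1
  · intro i hi j hj h
    obtain ⟨a, rfl⟩ := QuotientAddGroup.mk_surjective i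
    obtain ⟨b, hb, rfl⟩ := ex1 h2 hj
    obtain ⟨ha1, ha2⟩ := (mk_mem_L2 h0 h2).1 hi
    have hmem : ∀ w ∈ W, (QuotientAddGroup.mk w : Q ⧸ AddSubgroup.zmultiples τ) ∈
        W.map (QuotientAddGroup.mk' (AddSubgroup.zmultiples τ)) := fun w hw => ⟨w, hw, rfl⟩
    rw [← QuotientAddGroup.mk_add, ← QuotientAddGroup.mk_add] at h
    rcases (mk_eq_iff_two h2).1 h with h | h
    · obtain ⟨h3, h4⟩ := hc.rep a ha1 b hb h.symm
      exact ⟨by rw [h3], hmem _ h4⟩
    · obtain ⟨h3, h4⟩ := hc.rep (a + τ) ha2 b hb (by rw [h]; abel)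
      refine ⟨by rw [← h3, mk_add_tau h2], ?_⟩
      have h5 := hmem _ h4
      rw [QuotientAddGroup.mk_sub, mk_add_tau h2] at h5
      exact h5
  · intro i hi hiA
    obtain ⟨w, hw, rfl⟩ := hmap i hi
    exact hc.eA w hw ((mk_mem_L2 h0 h2).1 hiA).1
  · intro i hi hiB
    obtain ⟨w, hw, rfl⟩ := hmap i hi
    rcases (mk_mem_L1 h2).1 hiB with h | h
    · rw [hc.eB w hw h]; rfl
    · have := hc.eB (w + τ) (W.add_mem hw hτ) h
      rw [← mk_add_tau h2, this]; rfl

open Classical in
/-- the top levels -/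
lemma top_level {A B C : Finset Q} {W : AddSubgroup Q} {x : Q} (hc : Chain A B C W x)
    (hτ : τ ∈ W) (h0 : τ ≠ 0) (hx : x + τ ∈ A) :
    (L1 τ A).card + (L2 τ B).card ≤ (L1 τ C).card := by
  have h2 : τ + τ = 0 := hc.c2 τ hτ
  have hmap : ∀ i, i ∈ W.map (QuotientAddGroup.mk' (AddSubgroup.zmultiples τ)) →
      ∃ w ∈ W, (QuotientAddGroup.mk w : Q ⧸ AddSubgroup.zmultiples τ) = i := by
    rintro _ ⟨w, hw, rfl⟩
    exact ⟨w, hw, rfl⟩
  have hmem : ∀ w ∈ W, (QuotientAddGroup.mk w : Q ⧸ AddSubgroup.zmultiples τ) ∈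
      W.map (QuotientAddGroup.mk' (AddSubgroup.zmultiples τ)) := fun w hw => ⟨w, hw, rfl⟩
  have h0A : (0 : Q) ∉ A := hc.eA 0 W.zero_mem
  set Y := insert (0 : Q ⧸ AddSubgroup.zmultiples τ) (L2 τ B) with hY
  have h0B : (0 : Q ⧸ AddSubgroup.zmultiples τ) ∉ L2 τ B := by
    intro h
    have : (QuotientAddGroup.mk (0 : Q) : Q ⧸ AddSubgroup.zmultiples τ) ∈ L2 τ B := h
    have := ((mk_mem_L2 h0 h2).1 this).2
    rw [zero_add] at this
    exact h0 (hc.eB τ hτ this)
  have hYc : Y.card = (L2 τ B).card + 1 := card_insert_of_notMem h0B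
  set X := L1 τ A with hX
  have hTC : X + Y ⊆ L1 τ C := by
    intro z hz
    rw [mem_add] at hz
    obtain ⟨i, hi, j, hj, rfl⟩ := hz
    obtain ⟨a, ha, rfl⟩ := ex1 h2 hi
    rw [hY, mem_insert] at hj
    rcases hj with rfl | hj
    · rw [add_zero]
      apply in1 h2
      have := hc.a a ha 0 hc.b0 (fun h => h0A (h ▸ ha))
      rwa [add_zero] at this
    · obtain ⟨b, rfl⟩ := QuotientAddGroup.mk_surjective j
      obtain ⟨hb1, hb2⟩ := (mk_mem_L2 h0 h2).1 hj
      rw [← QuotientAddGroup.mk_add, mk_mem_L1 h2]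
      by_cases hab : a = b
      · right
        rw [add_assoc]
        apply hc.a a ha _ hb2
        intro h
        rw [← hab] at h
        exact h0 (by simpa using h)
      · left
        exact hc.a a ha b hb1 hab
  have h0T : (0 : Q ⧸ AddSubgroup.zmultiples τ) ∉ X + Y := by
    intro hz
    rw [mem_add] at hz
    obtain ⟨i, hi, j, hj, hij⟩ := hz
    obtain ⟨a, ha, rfl⟩ := ex1 h2 hi
    rw [hY, mem_insert] at hj
    rcases hj with rfl | hj
    · rw [add_zero, QuotientAddGroup.eq_zero_iff, mem_zm h2] at hij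
      rcases hij with h | h
      · exact h0A (h ▸ ha)
      · exact hc.eA τ hτ (h ▸ ha)
    · obtain ⟨b, rfl⟩ := QuotientAddGroup.mk_surjective j
      obtain ⟨hb1, hb2⟩ := (mk_mem_L2 h0 h2).1 hj
      rw [← QuotientAddGroup.mk_add, QuotientAddGroup.eq_zero_iff, mem_zm h2] at hij
      rcases hij with h | h
      · exact hc.bs a ha b hb1 h
      · apply hc.bs a ha _ hb2
        rw [← add_assoc, h, h2]
  -- representations of the class of `x + x`
  have hrep : ∀ i ∈ X, ∀ j ∈ L2 τ B, i + j = QuotientAddGroup.mk (x + x) →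
      i = j ∧ i - QuotientAddGroup.mk x ∈ W.map (QuotientAddGroup.mk' (AddSubgroup.zmultiples τ)) := by
    intro i hi j hj hij
    obtain ⟨a, ha, rfl⟩ := ex1 h2 hi
    obtain ⟨b, rfl⟩ := QuotientAddGroup.mk_surjective j
    obtain ⟨hb1, hb2⟩ := (mk_mem_L2 h0 h2).1 hj
    rw [← QuotientAddGroup.mk_add] at hij
    rcases (mk_eq_iff_two h2).1 hij with h | h
    · obtain ⟨h3, h4⟩ := hc.rep a ha b hb1 h.symm
      exact ⟨by rw [h3], hmem _ h4⟩
    · obtain ⟨h3, h4⟩ := hc.rep a ha (b + τ) hb2 (by rw [h]; abel)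
      exact ⟨by rw [h3, mk_add_tau h2], hmem _ h4⟩
  by_cases hs : (QuotientAddGroup.mk (x + x) : Q ⧸ AddSubgroup.zmultiples τ) ∈ X + Y
  · by_cases hex : ∃ i ∈ X, ∃ j ∈ L2 τ B, i + j = QuotientAddGroup.mk (x + x)
    · -- a diagonal representation
      obtain ⟨i, hi, j, hj, hij⟩ := hex
      obtain ⟨rfl, hiW⟩ := hrep i hi j hj hij
      obtain ⟨H, hH, hK⟩ := kneser_coset X Y i i hi (mem_insert_of_mem hj)
      have hTH : ∀ h ∈ H, h ∉ X + Y := by
        intro h hh hhT
        apply h0T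
        have := (hH (-h)).1 (H.neg_mem hh) h hhT
        rwa [neg_add_cancel] at this
      set E := (el H).filter (fun h => i + h ∈ X ∧ i - h ∈ Y) with hE
      have hEC : E ⊆ L1 τ C := by
        intro h hh
        rw [hE, mem_filter, mem_el] at hh
        obtain ⟨hhH, hhX, hhY⟩ := hh
        have hhW : h ∈ W.map (QuotientAddGroup.mk' (AddSubgroup.zmultiples τ)) := by
          rw [hY, mem_insert] at hhY
          rcases hhY with hz | hz
          · exfalso
            have hih : i = h := sub_eq_zero.1 hz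
            apply hTH h hhH
            rw [← hih, ← add_zero i]
            exact add_mem_add hi (mem_insert_self _ _)
          · have h3 := (hrep (i + h) hhX (i - h) hz (by rw [← hij]; abel)).2
            have h4 := AddSubgroup.sub_mem _ h3 hiW
            have e : i + h - QuotientAddGroup.mk x - (i - QuotientAddGroup.mk x) = h := by abel
            rwa [e] at h4
        obtain ⟨w, hw, rfl⟩ := hmap h hhW
        by_cases hw0 : w = 0
        · have e : (QuotientAddGroup.mk w : Q ⧸ AddSubgroup.zmultiples τ) =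
              QuotientAddGroup.mk τ := by
            rw [hw0]
            exact (mk_eq_iff_two h2).2 (Or.inr (zero_add τ).symm)
          rw [e]
          exact in1 h2 (hc.cC τ hτ h0)
        · exact in1 h2 (hc.cC w hw hw0)
      have hdis : Disjoint (X + Y) E := by
        rw [disjoint_left]
        intro z hz hzE
        rw [hE, mem_filter, mem_el] at hzE
        exact hTH z hzE.1 hz
      have h5 := card_le_card (union_subset hTC hEC)
      rw [card_union_of_disjoint hdis] at h5
      omega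
    · -- the representation `(x + x, 0)` is unique
      have hex' : ∀ i ∈ X, ∀ j ∈ L2 τ B, i + j ≠ QuotientAddGroup.mk (x + x) := by
        intro i hi j hj hij
        exact hex ⟨i, hi, j, hj, hij⟩
      rw [mem_add] at hs
      obtain ⟨i, hi, j, hj, hij⟩ := hs
      have hj0 : j = 0 := by
        rw [hY, mem_insert] at hj
        rcases hj with h | h
        · exact h
        · exact absurd hij (hex' i hi j h)
      subst hj0
      have h5 := stmt_Scherk stmt_kneser _ X Y i 0 hi hj (by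
        intro i' hi' j' hj' h
        rw [hY, mem_insert] at hj'
        rcases hj' with rfl | hj'
        · simpa using h
        · exact absurd (h.trans hij) (hex' i' hi' j' hj'))
      have h6 := card_le_card hTC
      omega
  · -- the class of `x + x` is not in `X + Y`
    have hxX : (QuotientAddGroup.mk x : Q ⧸ AddSubgroup.zmultiples τ) ∈ X := in1 h2 hc.xA
    have h0Y : (0 : Q ⧸ AddSubgroup.zmultiples τ) ∈ Y := mem_insert_self _ _
    obtain ⟨H, hH, hK⟩ := stmt_kneser _ X Y ⟨_, hxX⟩ ⟨_, h0Y⟩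
    have h3 := hull_coset H X _ hxX
    have h4 := card_hull_ge H Y
    set E := ((el H).filter (fun h => (QuotientAddGroup.mk x : Q ⧸ AddSubgroup.zmultiples τ) + h ∈ X)).image
      (fun h => QuotientAddGroup.mk (x + x) + h) with hE
    have hEc : E.card = ((el H).filter
        (fun h => (QuotientAddGroup.mk x : Q ⧸ AddSubgroup.zmultiples τ) + h ∈ X)).card :=
      card_image_add _ _
    have hEC : E ⊆ L1 τ C := by
      intro z hz
      rw [hE, mem_image] at hz
      obtain ⟨h, hh, rfl⟩ := hz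
      rw [mem_filter] at hh
      obtain ⟨a, ha, hah⟩ := ex1 h2 hh.2
      have e : (QuotientAddGroup.mk (x + x) : Q ⧸ AddSubgroup.zmultiples τ) + h =
          QuotientAddGroup.mk (a + x) := by
        rw [QuotientAddGroup.mk_add, QuotientAddGroup.mk_add, hah]; abel
      rw [e]
      by_cases hax : a = x
      · rw [hax, mk_mem_L1 h2]
        right
        rw [add_right_comm]
        apply hc.a _ hx x hc.xB
        intro h
        exact h0 (by simpa using h)
      · exact in1 h2 (hc.a a ha x hc.xB hax)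
    have hdis : Disjoint (X + Y) E := by
      rw [disjoint_left]
      intro z hz hzE
      rw [hE, mem_image] at hzE
      obtain ⟨h, hh, rfl⟩ := hzE
      rw [mem_filter, mem_el] at hh
      apply hs
      have := (hH (-h)).1 (H.neg_mem hh.1) _ hz
      rwa [add_comm (QuotientAddGroup.mk (x + x)) h, neg_add_cancel_left] at this
    have h5 := card_le_card (union_subset hTC hEC)
    rw [card_union_of_disjoint hdis] at h5
    omega

end step

/-- The chain lemma. -/
theorem chain_bound : ∀ n : ℕ, ∀ (Q : Type u) [AddCommGroup Q] [Finite Q], Nat.card Q = n →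
    (∀ K : AddSubgroup Q, RestrictedScherk (Q ⧸ K)) →
    ∀ (A B C : Finset Q) (W : AddSubgroup Q) (x : Q), Chain A B C W x →
      A.card + B.card ≤ C.card + 3 := by
  classical
  intro n
  induction n using Nat.strong_induction_on with
  | _ n ih =>
    intro Q _ _ hn hQ A B C W x hc
    by_cases hex : ∃ a ∈ A, x + x - a ∈ B ∧ a ≠ x
    · obtain ⟨a, ha, hb, hne⟩ := hex
      obtain ⟨_, hW⟩ := hc.rep a ha _ hb (by abel)
      set τ := a - x with hτ
      have h0 : τ ≠ 0 := sub_ne_zero.2 hne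
      have h2 : τ + τ = 0 := hc.c2 τ hW
      have hx : x + τ ∈ A := by rw [hτ, add_sub_cancel]; exact ha
      have h3 := chain_step hc hW h0 hx
      have h4 := top_level hc hW h0 hx
      have hcard : Nat.card (Q ⧸ AddSubgroup.zmultiples τ) < n := by
        have h5 := AddSubgroup.card_eq_card_quotient_mul_card_addSubgroup (AddSubgroup.zmultiples τ)
        rw [card_zm h0 h2, hn] at h5
        have h6 : 0 < Nat.card (Q ⧸ AddSubgroup.zmultiples τ) := Nat.card_pos
        omega
      have h5 := ih _ hcard (Q ⧸ AddSubgroup.zmultiples τ) rfl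
        (fun K => RestrictedScherk.congr (quoQuo _ K) (hQ _)) _ _ _ _ _ h3
      have cA := card_eq_L1_add_L2 h0 h2 A
      have cB := card_eq_L1_add_L2 h0 h2 B
      have cC := card_eq_L1_add_L2 h0 h2 C
      omega
    · push Not at hex
      have hQ0 : RestrictedScherk Q := RestrictedScherk.congr (QuotientAddGroup.quotientBot) (hQ ⊥)
      have h3 := RestrictedScherk.lost hQ0 A B x hc.xA hc.xB (fun a ha hb => hex a ha hb)
      have h4 : rs A B ⊆ C := by
        intro z hz
        rw [mem_rs] at hz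
        obtain ⟨a, ha, b, hb, hne, rfl⟩ := hz
        exact hc.a a ha b hb hne
      have := card_le_card h4
      omega

end S3

theorem stmt_S3 : Stmt_S3.{u} := by
  classical
  intro G _ _ _ hQ A B hadm hinv hinvC x y hxA hxB hyA hyB hxy h2xy hlost
  set σ := y - x with hσ
  have h0 : σ ≠ 0 := sub_ne_zero.2 hxy.symm
  have h2 : σ + σ = 0 := by
    have : σ + σ = (y + y) - (x + x) := by rw [hσ]; abel
    rw [this, h2xy, sub_self]
  have hxσ : x + σ = y := by rw [hσ, add_sub_cancel]
  have hσA : σ ∉ A := fun h => h0 (hinv σ (Or.inl h) h2)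
  have hσB : σ ∉ B := fun h => h0 (hinv σ (Or.inr h) h2)
  set W : AddSubgroup G :=
    { carrier := {w | w + w = 0}
      zero_mem' := by simp
      add_mem' := by
        intro a b ha hb
        have ha' : a + a = 0 := ha
        have hb' : b + b = 0 := hb
        have : a + b + (a + b) = (a + a) + (b + b) := by abel
        change a + b + (a + b) = 0
        rw [this, ha', hb', add_zero]
      neg_mem' := by
        intro a ha
        have ha' : a + a = 0 := ha
        have : -a + -a = -(a + a) := by abel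
        change -a + -a = 0
        rw [this, ha', neg_zero] } with hW
  have hmW : ∀ w, w ∈ W ↔ w + w = 0 := fun w => Iff.rfl
  have hmap : ∀ i, i ∈ W.map (QuotientAddGroup.mk' (AddSubgroup.zmultiples σ)) →
      ∃ w, w + w = 0 ∧ (QuotientAddGroup.mk w : G ⧸ AddSubgroup.zmultiples σ) = i := by
    rintro _ ⟨w, hw, rfl⟩
    exact ⟨w, hw, rfl⟩
  have hmem : ∀ w, w + w = 0 → (QuotientAddGroup.mk w : G ⧸ AddSubgroup.zmultiples σ) ∈
      W.map (QuotientAddGroup.mk' (AddSubgroup.zmultiples σ)) := fun w hw => ⟨w, hw, rfl⟩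
  have hsumW : ∀ w, w + w = 0 → (w + σ) + (w + σ) = 0 := by
    intro w hw
    have : (w + σ) + (w + σ) = (w + w) + (σ + σ) := by abel
    rw [this, hw, h2, add_zero]
  have hne' : ∀ z : G, z ≠ z + σ := fun z h => h0 (by simpa using h)
  -- the chain in the quotient
  have hc : S3.Chain (L2 σ A) (L1 σ B) (L2 σ (rs A B))
      (W.map (QuotientAddGroup.mk' (AddSubgroup.zmultiples σ))) (QuotientAddGroup.mk x) := by
    refine ⟨?_, S3.in1 h2 hadm.zB, ?_, ?_, ?_, ?_, S3.in1 h2 hxB, ?_, ?_, ?_, ?_⟩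
    · intro i hi j hj hne
      obtain ⟨a, rfl⟩ := QuotientAddGroup.mk_surjective i
      obtain ⟨b, hb, rfl⟩ := S3.ex1 h2 hj
      obtain ⟨ha1, ha2⟩ := (mk_mem_L2 h0 h2).1 hi
      rw [← QuotientAddGroup.mk_add, mk_mem_L2 h0 h2]
      constructor
      · exact mem_rs.2 ⟨a, ha1, b, hb, fun h => hne (by rw [h]), rfl⟩
      · exact mem_rs.2 ⟨a + σ, ha2, b, hb, fun h => hne (by rw [← h, S3.mk_add_tau h2]), by abel⟩
    · intro i hi j hj h
      obtain ⟨a, rfl⟩ := QuotientAddGroup.mk_surjective i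
      obtain ⟨b, hb, rfl⟩ := S3.ex1 h2 hj
      have hi' : (QuotientAddGroup.mk (-b) : G ⧸ AddSubgroup.zmultiples σ) ∈ L2 σ A := by
        have : (QuotientAddGroup.mk (-b) : G ⧸ AddSubgroup.zmultiples σ) = QuotientAddGroup.mk a := by
          rw [QuotientAddGroup.mk_neg, eq_comm]
          exact eq_neg_of_add_eq_zero_left h
        rw [this]; exact hi
      obtain ⟨ha1, ha2⟩ := (mk_mem_L2 h0 h2).1 hi'
      have h3 := hadm.uniq (-b) ha1 (by rw [neg_neg]; exact hb)
      rw [h3, zero_add] at ha2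
      exact hσA ha2
    · intro i hi
      obtain ⟨w, hw, rfl⟩ := hmap i hi
      rw [← QuotientAddGroup.mk_add, hw]
      rfl
    · intro i hi hi0
      obtain ⟨w, hw, rfl⟩ := hmap i hi
      rw [mk_mem_L2 h0 h2]
      have hw0 : w ≠ 0 := fun h => hi0 (by rw [h]; rfl)
      have hw1 : w + σ ≠ 0 := by
        intro h
        apply hi0
        rw [← S3.mk_add_tau h2, h]
        rfl
      exact ⟨hinvC w hw hw0, hinvC (w + σ) (hsumW w hw) hw1⟩
    · exact (mk_mem_L2 h0 h2).2 ⟨hxA, by rw [hxσ]; exact hyA⟩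
    · rw [← QuotientAddGroup.mk_add, mk_mem_L2 h0 h2]
      exact fun h => hlost h.1
    · intro i hi j hj h
      obtain ⟨b, hb, rfl⟩ := S3.ex1 h2 hj
      have hij : i = QuotientAddGroup.mk b := by
        by_contra hne
        obtain ⟨a, rfl⟩ := QuotientAddGroup.mk_surjective i
        obtain ⟨ha1, ha2⟩ := (mk_mem_L2 h0 h2).1 hi
        rw [← QuotientAddGroup.mk_add, ← QuotientAddGroup.mk_add] at h
        rcases (mk_eq_iff_two h2).1 h with h | h
        · exact hlost (mem_rs.2 ⟨a, ha1, b, hb, fun h' => hne (by rw [h']), h.symm⟩)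
        · exact hlost (mem_rs.2 ⟨a + σ, ha2, b, hb,
            fun h' => hne (by rw [← h', S3.mk_add_tau h2]), by rw [h]; abel⟩)
      subst hij
      refine ⟨rfl, ?_⟩
      obtain ⟨ha1, ha2⟩ := (mk_mem_L2 h0 h2).1 hi
      rw [← QuotientAddGroup.mk_add, ← QuotientAddGroup.mk_add] at h
      have hbb : x + x = b + b := by
        rcases (mk_eq_iff_two h2).1 h with h | h
        · exact h
        · exfalso
          apply hlost
          exact mem_rs.2 ⟨b + σ, ha2, b, hb, (hne' b).symm, by rw [h]; abel⟩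
      have := hmem (b - x) (by
        have e : (b - x) + (b - x) = (b + b) - (x + x) := by abel
        rw [e, hbb, sub_self])
      exact this
    · intro i hi hiA
      obtain ⟨w, hw, rfl⟩ := hmap i hi
      obtain ⟨h3, h4⟩ := (mk_mem_L2 h0 h2).1 hiA
      have := hinv w (Or.inl h3) hw
      rw [this, zero_add] at h4
      exact hσA h4
    · intro i hi hiB
      obtain ⟨w, hw, rfl⟩ := hmap i hi
      rcases (mk_mem_L1 h2).1 hiB with h | h
      · rw [hinv w (Or.inr h) hw]; rfl
      · have := hinv (w + σ) (Or.inr h) (hsumW w hw)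
        rw [← S3.mk_add_tau h2, this]; rfl
  have hz0 : AddSubgroup.zmultiples σ ≠ ⊥ := by
    intro h
    exact h0 (AddSubgroup.zmultiples_eq_bot.1 h)
  have h5 := S3.chain_bound _ (G ⧸ AddSubgroup.zmultiples σ) rfl (by
    intro K
    apply RestrictedScherk.congr (quoQuo _ K)
    apply hQ
    intro hbot
    apply hz0
    rw [eq_bot_iff, ← hbot]
    intro z hz
    rw [AddSubgroup.mem_comap]
    have : QuotientAddGroup.mk' (AddSubgroup.zmultiples σ) z = 0 := by
      rw [QuotientAddGroup.mk'_apply]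
      exact (QuotientAddGroup.eq_zero_iff z).2 hz
    rw [this]
    exact K.zero_mem) _ _ _ _ _ hc
  -- the first levels
  have h6 : (L1 σ A).card + (L2 σ B).card ≤ (L1 σ (rs A B)).card := by
    set Y := insert (0 : G ⧸ AddSubgroup.zmultiples σ) (L2 σ B) with hY
    have h0B : (0 : G ⧸ AddSubgroup.zmultiples σ) ∉ L2 σ B := by
      intro h
      have : (QuotientAddGroup.mk (0 : G) : G ⧸ AddSubgroup.zmultiples σ) ∈ L2 σ B := h
      have := ((mk_mem_L2 h0 h2).1 this).2
      rw [zero_add] at this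
      exact hσB this
    have hYc : Y.card = (L2 σ B).card + 1 := card_insert_of_notMem h0B
    have hTC : L1 σ A + Y ⊆ L1 σ (rs A B) := by
      intro z hz
      rw [mem_add] at hz
      obtain ⟨i, hi, j, hj, rfl⟩ := hz
      obtain ⟨a, ha, rfl⟩ := S3.ex1 h2 hi
      rw [hY, mem_insert] at hj
      rcases hj with rfl | hj
      · rw [add_zero]
        by_cases ha0 : a = 0
        · rw [ha0, ← S3.mk_add_tau h2]
          apply S3.in1 h2
          rw [zero_add]
          exact hinvC σ h2 h0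
        · exact S3.in1 h2 (mem_rs.2 ⟨a, ha, 0, hadm.zB, ha0, add_zero a⟩)
      · obtain ⟨b, rfl⟩ := QuotientAddGroup.mk_surjective j
        obtain ⟨hb1, hb2⟩ := (mk_mem_L2 h0 h2).1 hj
        rw [← QuotientAddGroup.mk_add, mk_mem_L1 h2]
        by_cases hab : a = b
        · right
          rw [add_assoc]
          exact mem_rs.2 ⟨a, ha, b + σ, hb2, by rw [hab]; exact hne' b, rfl⟩
        · left
          exact mem_rs.2 ⟨a, ha, b, hb1, hab, rfl⟩
    have h7 := stmt_Scherk stmt_kneser _ (L1 σ A) Y 0 0 (S3.in1 h2 hadm.zA) (mem_insert_self _ _) (by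
      intro i hi j hj hij
      rw [add_zero] at hij
      rw [hY, mem_insert] at hj
      rcases hj with rfl | hj
      · simpa using hij
      · exfalso
        obtain ⟨a, ha, rfl⟩ := S3.ex1 h2 hi
        have hj' : (QuotientAddGroup.mk (-a) : G ⧸ AddSubgroup.zmultiples σ) ∈ L2 σ B := by
          have : (QuotientAddGroup.mk (-a) : G ⧸ AddSubgroup.zmultiples σ) = j := by
            rw [QuotientAddGroup.mk_neg, eq_comm]
            exact eq_neg_of_add_eq_zero_right hij
          rw [this]; exact hj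
        obtain ⟨hb1, hb2⟩ := (mk_mem_L2 h0 h2).1 hj'
        have h3 := hadm.uniq a ha hb1
        rw [h3, neg_zero, zero_add] at hb2
        exact hσB hb2)
    have h8 := card_le_card hTC
    omega
  have cA := card_eq_L1_add_L2 h0 h2 A
  have cB := card_eq_L1_add_L2 h0 h2 B
  have cC := card_eq_L1_add_L2 h0 h2 (rs A B)
  omega

end Pool.Agent.Work.MP_59976d_co
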