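import Pool.Agent.Work.MP_59976d_co_even_helper38.Prep

/-!
Block S5: passage to the quotient by an involution.
-/

namespace Pool.Agent.Work.MP_59976d_co

open Finset
open scoped Pointwise

universe u

namespace E38

variable {G : Type u} [AddCommGroup G] [DecidableEq G]

/-- three elements over representations -/
lemma three {Q : Type u} [DecidableEq Q] (s : Finset Q) (h : 3 ≤ s.card) :
    ∃ x ∈ s, ∃ y ∈ s, ∃ z ∈ s, x ≠ y ∧ x ≠ z ∧ y ≠ z := by
  obtain ⟨x, y, z, hx, hy, hz, h1, h2, h3⟩ := Finset.two_lt_card_iff.1 (by omega : 2 < s.card)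
  exact ⟨x, hx, y, hy, z, hz, h1, h2, h3⟩

/-- part (i): no sum is lost in the quotient -/
lemma S5_i [Finite G] {σ : G} (h0 : σ ≠ 0) (h2 : σ + σ = 0)
    (hL : LL (G ⧸ AddSubgroup.zmultiples σ))
    (A B : Finset G) (hdef : (rs A B).card + 4 ≤ A.card + B.card)
    (hfib : ∀ w : G, w ≠ 0 → w + w = 0 → (∀ a ∈ A, a + w ∉ A) ∧ (∀ b ∈ B, b + w ∉ B))
    (hlost : ∀ d ∈ A, d ∈ B → d + d ∈ rs A B ∨ d + d + σ ∈ rs A B)
    (a b : G) (ha : a ∈ A) (hb : b ∈ B) : a + b ∈ rs A B ∨ a + b + σ ∈ rs A B := by
  classical
  set π : G → G ⧸ AddSubgroup.zmultiples σ := fun x => QuotientAddGroup.mk x with hπ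
  have hπa : ∀ x y, π (x + y) = π x + π y := fun x y => rfl
  have hmk : ∀ {x y : G}, π x = π y ↔ y = x ∨ y = x + σ := mk_eq h2
  have hinjA : Set.InjOn π (A : Set G) := by
    intro x hx y hy hxy
    rcases hmk.1 hxy with h | h
    · exact h.symm
    · exact absurd (by rw [← h]; exact hy) ((hfib σ h0 h2).1 x hx)
  have hinjB : Set.InjOn π (B : Set G) := by
    intro x hx y hy hxy
    rcases hmk.1 hxy with h | h
    · exact h.symm
    · exact absurd (by rw [← h]; exact hy) ((hfib σ h0 h2).2 x hx)
  have hcA : (A.image π).card = A.card := card_image_of_injOn hinjA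
  have hcB : (B.image π).card = B.card := card_image_of_injOn hinjB
  have hsub : rs (A.image π) (B.image π) ⊆ (rs A B).image π := by
    intro x hx
    rw [mem_rs] at hx
    obtain ⟨x, hx, y, hy, hne, rfl⟩ := hx
    rw [mem_image] at hx hy
    obtain ⟨x, hx, rfl⟩ := hx
    obtain ⟨y, hy, rfl⟩ := hy
    exact mem_image.2 ⟨x + y, mem_rs.2 ⟨x, hx, y, hy, fun h => hne (by rw [h]), rfl⟩, rfl⟩
  have hgoal : π (a + b) ∈ (rs A B).image π → a + b ∈ rs A B ∨ a + b + σ ∈ rs A B := by
    intro h
    rw [mem_image] at h
    obtain ⟨c, hc, hcab⟩ := h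
    rcases hmk.1 hcab.symm with h | h
    · left; rw [← h]; exact hc
    · right; rw [← h]; exact hc
  apply hgoal
  by_contra hcon
  -- the sum is lost
  have hlostQ : ∀ x ∈ A, ∀ y ∈ B, π x + π y = π (a + b) → π x = π y := by
    intro x hx y hy hxy
    by_contra hne
    exact hcon (hxy ▸ hsub (mem_rs.2 ⟨π x, mem_image_of_mem _ hx, π y, mem_image_of_mem _ hy, hne, rfl⟩))
  have hab : π a = π b := hlostQ a ha b hb rfl
  have hL1 := LL_at hL (A.image π) (B.image π) (π a) (mem_image_of_mem _ ha)
    (by rw [hab]; exact mem_image_of_mem _ hb) (by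
      intro x hx y hy hxy
      rw [mem_image] at hx hy
      obtain ⟨x, hx, rfl⟩ := hx
      obtain ⟨y, hy, rfl⟩ := hy
      apply hlostQ x hx y hy
      rw [hxy, hπa, ← hab])
  rw [hcA, hcB] at hL1
  have hc1 := card_le_card hsub
  have hc2 : ((rs A B).image π).card ≤ (rs A B).card := card_image_le
  set S := (A.image π).filter (fun x => π a + π a - x ∈ B.image π) with hS
  -- members of `S`
  have hSmem : ∀ x ∈ S, ∃ u ∈ A, π u = x ∧ x + x = π (a + b) := by
    intro x hx
    rw [hS, mem_filter, mem_image] at hx
    obtain ⟨⟨u, hu, rfl⟩, hv⟩ := hx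
    rw [mem_image] at hv
    obtain ⟨v, hv, hvu⟩ := hv
    have h1 : π u + π v = π (a + b) := by rw [hvu, hπa, ← hab]; abel
    have h3 := hlostQ u hu v hv h1
    exact ⟨u, hu, rfl, by rw [← h1, ← h3]⟩
  have hSle : S.card ≤ 2 := by
    by_contra hgt
    obtain ⟨x, hx, y, hy, z, hz, h1, h3, h4⟩ := three S (by omega)
    obtain ⟨u, hu, rfl, hu2⟩ := hSmem x hx
    obtain ⟨v, hv, rfl, hv2⟩ := hSmem y hy
    obtain ⟨w, hw, rfl, hw2⟩ := hSmem z hz
    have key : ∀ p q, p ∈ A → q ∈ A → π p ≠ π q → π p + π p = π q + π q →
        (p - q) + (p - q) = σ := by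
      intro p q hp hq hne heq
      have h5 : π (p + p) = π (q + q) := heq
      rcases hmk.1 h5 with h | h
      · exfalso
        have hw0 : p - q ≠ 0 := fun h6 => hne (by rw [sub_eq_zero.1 h6])
        have hw2 : (p - q) + (p - q) = 0 := by
          have : (p - q) + (p - q) = (p + p) - (q + q) := by abel
          rw [this, h, sub_self]
        exact (hfib _ hw0 hw2).1 q hq (by rw [add_sub_cancel]; exact hp)
      · have : (p - q) + (p - q) = (p + p) - (q + q) := by abel
        rw [this, h]
        have h6 : p + p - (p + p + σ) = -σ := by abel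
        rw [h6, neg_eq_iff_add_eq_zero.2 h2]
    have k1 := key u v hu hv h1 (by rw [hu2, hv2])
    have k2 := key v w hv hw h4 (by rw [hv2, hw2])
    have k3 := key u w hu hw h3 (by rw [hu2, hw2])
    have : (u - w) + (u - w) = ((u - v) + (u - v)) + ((v - w) + (v - w)) := by abel
    rw [k1, k2, k3, h2] at this
    exact h0 this
  have heq : (rs (A.image π) (B.image π)).card = ((rs A B).image π).card := by omega
  have heq2 := eq_of_subset_of_card_le hsub (by omega)
  -- a diagonal representation
  apply hcon
  by_cases hab2 : a = b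
  · subst hab2
    rcases hlost a ha hb with h | h
    · exact mem_image_of_mem _ h
    · refine mem_image.2 ⟨_, h, ?_⟩
      exact hmk.2 (Or.inr (by rw [add_assoc, h2, add_zero]))
  · exact mem_image_of_mem _ (mem_rs.2 ⟨a, ha, b, hb, hab2, rfl⟩)

end E38

theorem stmt_S5 : Stmt_S5.{u} := by
  classical
  intro G _ _ _ hSub hQuo A B hadm hdef hfib hlost σ h0 h2
  have hS0 : AddSubgroup.zmultiples σ ≠ ⊥ := by
    intro h
    exact h0 (AddSubgroup.zmultiples_eq_bot.1 h)
  have hi := E38.S5_i h0 h2 (hQuo _ hS0) A B hdef hfib (hlost σ h0 h2)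
  -- the quotient
  set S := AddSubgroup.zmultiples σ with hSdef
  set π : G → G ⧸ S := fun x => QuotientAddGroup.mk x with hπ
  have hπa : ∀ x y, π (x + y) = π x + π y := fun x y => rfl
  have hmk : ∀ {x y : G}, π x = π y ↔ y = x ∨ y = x + σ := E38.mk_eq h2
  have hinjA : Set.InjOn π (A : Set G) := by
    intro x hx y hy hxy
    rcases hmk.1 hxy with h | h
    · exact h.symm
    · exact absurd (by rw [← h]; exact hy) ((hfib σ h0 h2).1 x hx)
  have hinjB : Set.InjOn π (B : Set G) := by
    intro x hx y hy hxy
    rcases hmk.1 hxy with h | h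
    · exact h.symm
    · exact absurd (by rw [← h]; exact hy) ((hfib σ h0 h2).2 x hx)
  have hcA : (A.image π).card = A.card := card_image_of_injOn hinjA
  have hcB : (B.image π).card = B.card := card_image_of_injOn hinjB
  have hCC : A.image π + B.image π = (rs A B).image π := by
    ext z
    rw [mem_add, mem_image]
    constructor
    · rintro ⟨x, hx, y, hy, rfl⟩
      rw [mem_image] at hx hy
      obtain ⟨x, hx, rfl⟩ := hx
      obtain ⟨y, hy, rfl⟩ := hy
      rcases hi x y hx hy with h | h
      · exact ⟨_, h, rfl⟩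
      · exact ⟨_, h, hmk.2 (Or.inr (by rw [add_assoc, h2, add_zero]))⟩
    · rintro ⟨c, hc, rfl⟩
      rw [mem_rs] at hc
      obtain ⟨x, hx, y, hy, _, rfl⟩ := hc
      exact ⟨π x, mem_image_of_mem _ hx, π y, mem_image_of_mem _ hy, rfl⟩
  have hnA : (A.image π).Nonempty := ⟨π 0, mem_image_of_mem _ hadm.zA⟩
  have hnB : (B.image π).Nonempty := ⟨π 0, mem_image_of_mem _ hadm.zB⟩
  obtain ⟨H, hH, hK⟩ := stmt_kneser (G ⧸ S) (A.image π) (B.image π) hnA hnB
  rw [hCC] at hK hH
  have hc2 : ((rs A B).image π).card ≤ (rs A B).card := card_image_le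
  -- the stabiliser is everything
  have hHtop : H = ⊤ := by
    by_contra hne
    set H' : AddSubgroup G := H.comap (QuotientAddGroup.mk' S) with hH'
    have hmem : ∀ x, x ∈ H' ↔ π x ∈ H := fun x => Iff.rfl
    have hne' : H' ≠ ⊤ := by
      intro h
      apply hne
      rw [eq_top_iff]
      intro y _
      obtain ⟨x, rfl⟩ := QuotientAddGroup.mk_surjective y
      have : x ∈ H' := by rw [h]; trivial
      exact this
    have hQ1 := E38.rsch_of_LL (hSub H' hne')
    -- counting
    have count : ∀ X : Finset G, Set.InjOn π (X : Set G) → (0 : G) ∈ X →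
        X.card + Nat.card H ≤ (X.filter (fun x => x ∈ H')).card + (hull H (X.image π)).card := by
      intro X hinj hX0
      have h3 : X.card = (X.filter (fun x => x ∈ H')).card + (X.filter (fun x => x ∉ H')).card :=
        (card_filter_add_card_filter_not (p := fun x => x ∈ H')).symm
      have h4 : ((X.filter (fun x => x ∉ H')).image π).card = (X.filter (fun x => x ∉ H')).card :=
        card_image_of_injOn (hinj.mono (by intro x hx; exact (mem_filter.1 hx).1))
      have h5 : ((hull H (X.image π)).filter (fun x => x ∉ H)).card + Nat.card H ≤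
          (hull H (X.image π)).card := by
        rw [← card_filter_add_card_filter_not (s := hull H (X.image π)) (p := fun x => x ∈ H),
          add_comm]
        apply Nat.add_le_add_right
        have h6 : (Set.toFinite (H : Set (G ⧸ S))).toFinset ⊆
            (hull H (X.image π)).filter (fun x => x ∈ H) := by
          intro x hx
          simp only [Set.Finite.mem_toFinset, SetLike.mem_coe] at hx
          refine mem_filter.2 ⟨mem_hull.2 ⟨π 0, mem_image_of_mem _ hX0, ?_⟩, hx⟩
          have : π 0 = 0 := rfl
          rw [this, sub_zero]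
          exact hx
        have h7 := card_le_card h6
        rw [← Nat.card_eq_card_finite_toFinset] at h7
        exact h7
      have h6 : ((X.filter (fun x => x ∉ H')).image π) ⊆
          (hull H (X.image π)).filter (fun x => x ∉ H) := by
        intro y hy
        rw [mem_image] at hy
        obtain ⟨x, hx, rfl⟩ := hy
        rw [mem_filter] at hx
        refine mem_filter.2 ⟨subset_hull H _ (mem_image_of_mem _ hx.1), hx.2⟩
      have h7 := card_le_card h6
      omega
    have cA := count A hinjA hadm.zA
    have cB := count B hinjB hadm.zB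
    have cC : ((rs A B).filter (fun x => x ∈ H')).card + ((rs A B).image π).card ≤
        (rs A B).card + Nat.card H := by
      have h3 : (rs A B).card = ((rs A B).filter (fun x => x ∈ H')).card +
          ((rs A B).filter (fun x => x ∉ H')).card :=
        (card_filter_add_card_filter_not (p := fun x => x ∈ H')).symm
      have h4 : (((rs A B).image π).filter (fun x => x ∉ H)).card ≤
          ((rs A B).filter (fun x => x ∉ H')).card := by
        have : ((rs A B).image π).filter (fun x => x ∉ H) ⊆
            ((rs A B).filter (fun x => x ∉ H')).image π := by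
          intro y hy
          rw [mem_filter, mem_image] at hy
          obtain ⟨⟨x, hx, rfl⟩, hy2⟩ := hy
          exact mem_image_of_mem _ (mem_filter.2 ⟨hx, hy2⟩)
        exact (card_le_card this).trans card_image_le
      have h5 : (((rs A B).image π).filter (fun x => x ∈ H)).card ≤ Nat.card H := by
        have hcH : Nat.card H = (Set.toFinite (H : Set (G ⧸ S))).toFinset.card :=
          Nat.card_eq_card_finite_toFinset (Set.toFinite (H : Set (G ⧸ S)))
        rw [hcH]
        apply card_le_card
        intro x hx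
        simp only [Set.Finite.mem_toFinset, SetLike.mem_coe]
        exact (mem_filter.1 hx).2
      have h6 : ((rs A B).image π).card = (((rs A B).image π).filter (fun x => x ∈ H)).card +
          (((rs A B).image π).filter (fun x => x ∉ H)).card :=
        (card_filter_add_card_filter_not (p := fun x => x ∈ H)).symm
      omega
    have hsub : rs (A.filter (fun x => x ∈ H')) (B.filter (fun x => x ∈ H')) ⊆
        (rs A B).filter (fun x => x ∈ H') := by
      intro z hz
      rw [mem_rs] at hz
      obtain ⟨x, hx, y, hy, hne, rfl⟩ := hz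
      rw [mem_filter] at hx hy
      exact mem_filter.2 ⟨mem_rs.2 ⟨x, hx.1, y, hy.1, hne, rfl⟩, H'.add_mem hx.2 hy.2⟩
    have hfin := of_injective hQ1 H'.subtype (Subtype.val_injective)
      (A.filter (fun x => x ∈ H')) (B.filter (fun x => x ∈ H'))
      ⟨mem_filter.2 ⟨hadm.zA, H'.zero_mem⟩, mem_filter.2 ⟨hadm.zB, H'.zero_mem⟩, by
        intro a ha hb
        exact hadm.uniq a (mem_filter.1 ha).1 (mem_filter.1 hb).1⟩
      (by intro a ha; exact ⟨⟨a, (mem_filter.1 ha).2⟩, rfl⟩)
      (by intro a ha; exact ⟨⟨a, (mem_filter.1 ha).2⟩, rfl⟩)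
    have hsub2 := card_le_card hsub
    omega
  -- all classes are met
  have hall : ∀ y : G ⧸ S, y ∈ (rs A B).image π := by
    intro y
    obtain ⟨z, hz⟩ : ((rs A B).image π).Nonempty := by
      rw [← hCC]; exact hnA.add hnB
    have := (hH (y - z)).1 (by rw [hHtop]; trivial) z hz
    rwa [sub_add_cancel] at this
  have hmeet : ∀ g : G, g ∈ rs A B ∨ g + σ ∈ rs A B := by
    intro g
    have := hall (π g)
    rw [mem_image] at this
    obtain ⟨c, hc, hcg⟩ := this
    rcases hmk.1 hcg.symm with h | h
    · left; rw [← h]; exact hc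
    · right; rw [← h]; exact hc
  have hcardQ : Nat.card (G ⧸ S) ≤ (rs A B).card := by
    have : Fintype (G ⧸ S) := Fintype.ofFinite _
    rw [Nat.card_eq_fintype_card, ← card_univ]
    calc (univ : Finset (G ⧸ S)).card ≤ ((rs A B).image π).card :=
          card_le_card (fun y _ => hall y)
      _ ≤ _ := hc2
  have hcG := E38.card_quot (G := G) h0 h2
  have hbig : Nat.card G + 8 ≤ 2 * (A.card + B.card) := by
    have : Nat.card G = 2 * Nat.card (G ⧸ S) := hcG
    omega
  refine ⟨?_, hmeet, hbig⟩
  -- uniqueness of the involution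
  intro w hw
  by_contra hcon
  push Not at hcon
  obtain ⟨hw0, hwσ⟩ := hcon
  have hsum0 : w + σ ≠ 0 := by
    intro h
    apply hwσ
    have h3 : w = -σ := eq_neg_of_add_eq_zero_left h
    rw [h3]
    exact neg_eq_of_add_eq_zero_left h2
  have hsum2 : (w + σ) + (w + σ) = 0 := by
    have : (w + σ) + (w + σ) = (w + w) + (σ + σ) := by abel
    rw [this, hw, h2, add_zero]
  have four : ∀ X : Finset G, (∀ v : G, v ≠ 0 → v + v = 0 → ∀ x ∈ X, x + v ∉ X) →
      4 * X.card ≤ Nat.card G := by
    intro X hX
    have : Fintype G := Fintype.ofFinite G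
    set V : Finset G := {0, σ, w, w + σ} with hV
    have hVc : V.card = 4 := by
      rw [hV, card_insert_of_notMem, card_insert_of_notMem, card_insert_of_notMem,
        card_singleton]
      · rw [mem_singleton]
        intro h
        exact h0 (by simpa using h)
      · rw [mem_insert, mem_singleton]
        rintro (h | h)
        · exact hwσ h.symm
        · exact hw0 (by simpa using h)
      · rw [mem_insert, mem_insert, mem_singleton]
        rintro (h | h | h)
        · exact h0 h.symm
        · exact hw0 h.symm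
        · exact hsum0 h.symm
    have hVV : ∀ v ∈ V, v + v = 0 := by
      intro v hv
      rw [hV] at hv
      simp only [mem_insert, mem_singleton] at hv
      rcases hv with rfl | rfl | rfl | rfl
      · simp
      · exact h2
      · exact hw
      · exact hsum2
    have hVsub : ∀ v ∈ V, ∀ v' ∈ V, v ≠ v' → v - v' ≠ 0 ∧ (v - v') + (v - v') = 0 := by
      intro v hv v' hv' hne
      refine ⟨sub_ne_zero.2 hne, ?_⟩
      have : (v - v') + (v - v') = (v + v) - (v' + v') := by abel
      rw [this, hVV v hv, hVV v' hv', sub_self]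
    have hinj : Set.InjOn (fun p : G × G => p.1 + p.2) ((X ×ˢ V : Finset (G × G)) : Set (G × G)) := by
      rintro ⟨x, v⟩ hx ⟨x', v'⟩ hx' heq
      simp only [coe_product, Set.mem_prod, mem_coe] at hx hx'
      simp only at heq
      by_cases hvv : v = v'
      · subst hvv
        rw [add_right_cancel heq]
      · exfalso
        obtain ⟨h3, h4⟩ := hVsub v hx.2 v' hx'.2 hvv
        apply hX _ h3 h4 x hx.1
        have : x + (v - v') = x' := by
          have h5 : x + (v - v') = (x + v) - v' := by abel
          rw [h5, heq]; abel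
        rw [this]
        exact hx'.1
    have h3 := card_image_of_injOn hinj
    rw [card_product, hVc] at h3
    have h4 : ((X ×ˢ V).image (fun p : G × G => p.1 + p.2)).card ≤ Nat.card G := by
      rw [Nat.card_eq_fintype_card]
      exact card_le_univ _
    omega
  have f1 := four A (fun v hv hv2 => (hfib v hv hv2).1)
  have f2 := four B (fun v hv hv2 => (hfib v hv hv2).2)
  omega

end Pool.Agent.Work.MP_59976d_co
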