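import Pool.Agent.Work.MP_59976d_co_even.Interface
import Pool.Agent.Work.MP_59976d_co_odd.Basic
import Pool.Agent.Work.MP_59976d_co_odd.KN

/-!
Auxiliary lemmas for the blocks S5 and S3.
-/

namespace Pool.Agent.Work.MP_59976d_co

open Finset
open scoped Pointwise

universe u

namespace E38

lemma rsch_of_LL {H : Type*} [AddCommGroup H] (h : LL H) : RestrictedScherk H := by
  intro A B hAB
  have h0 : (0 : H) ∈ {x : H | x ∈ A ∧ -x ∈ B} := by rw [hAB]; rfl
  have h1 := h A B h0.1 (by simpa using h0.2) (fun a ha hb => by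
    have h2 : a ∈ {x : H | x ∈ A ∧ -x ∈ B} := ⟨ha, hb⟩
    rw [hAB] at h2
    have h3 : a = 0 := h2
    rw [h3, add_zero])
  rw [hAB, Set.ncard_singleton] at h1
  omega

variable {G : Type u} [AddCommGroup G] [DecidableEq G]

lemma LL_finset (h : LL G) (A B : Finset G) (hA : (0 : G) ∈ A) (hB : (0 : G) ∈ B)
    (hd : ∀ a ∈ A, -a ∈ B → a + a = 0) :
    A.card + B.card ≤ (rs A B).card + (A.filter (fun a => -a ∈ B)).card + 2 := by
  have h1 := h A B hA hB hd
  rw [ncard_rs] at h1
  have h2 : {a : G | a ∈ A ∧ -a ∈ B} = (A.filter (fun a => -a ∈ B) : Set G) := by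
    ext x; simp
  rw [h2, Set.ncard_coe_finset] at h1
  exact h1

/-- (L), not centred -/
lemma LL_at (h : LL G) (A B : Finset G) (i : G) (hA : i ∈ A) (hB : i ∈ B)
    (hd : ∀ a ∈ A, ∀ b ∈ B, a + b = i + i → a = b) :
    A.card + B.card ≤ (rs A B).card + (A.filter (fun a => i + i - a ∈ B)).card + 2 := by
  have h1 := LL_finset h (A.image (fun a => -i + a)) (B.image (fun b => -i + b))
    (mem_image.2 ⟨i, hA, by abel⟩) (mem_image.2 ⟨i, hB, by abel⟩) (by
      intro a ha hb
      rw [mem_image] at ha hb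
      obtain ⟨a, ha, rfl⟩ := ha
      obtain ⟨b, hb, hab⟩ := hb
      have e : a + b = i + i := by
        have : b = i + (-(-i + a)) := by rw [← hab]; abel
        rw [this]; abel
      have h2 := hd a ha b hb e
      subst h2
      have : -i + a + (-i + a) = (a + a) - (i + i) := by abel
      rw [this, e, sub_self])
  rw [card_image_add, card_image_add, rs_translate, card_image_add] at h1
  have h2 : ((A.image (fun a => -i + a)).filter (fun a => -a ∈ B.image (fun b => -i + b))) =
      (A.filter (fun a => i + i - a ∈ B)).image (fun a => -i + a) := by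
    ext x
    simp only [mem_filter, mem_image]
    constructor
    · rintro ⟨⟨a, ha, rfl⟩, b, hb, hab⟩
      refine ⟨a, ⟨ha, ?_⟩, rfl⟩
      have : i + i - a = b := by
        have : b = i + (-(-i + a)) := by rw [← hab]; abel
        rw [this]; abel
      rw [this]; exact hb
    · rintro ⟨a, ⟨ha, hb⟩, rfl⟩
      exact ⟨⟨a, ha, rfl⟩, i + i - a, hb, by abel⟩
  rw [h2, card_image_add] at h1
  exact h1

/-- Q1, not centred -/
lemma Q1_at (h : RestrictedScherk G) (A B : Finset G) (i : G) (hA : i ∈ A) (hB : i ∈ B)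
    (hd : ∀ a ∈ A, i + i - a ∈ B → a = i) : A.card + B.card ≤ (rs A B).card + 3 := by
  have h0 := restrictedScherk_iff.1 h (A.image (fun a => -i + a)) (B.image (fun b => -i + b))
    ⟨mem_image.2 ⟨i, hA, by abel⟩, mem_image.2 ⟨i, hB, by abel⟩, by
      intro a ha hb
      rw [mem_image] at ha hb
      obtain ⟨a, ha, rfl⟩ := ha
      obtain ⟨b, hb, hab⟩ := hb
      have e : i + i - a = b := by
        have : b = i + (-(-i + a)) := by rw [← hab]; abel
        rw [this]; abel
      have h2 := hd a ha (by rw [e]; exact hb)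
      rw [h2]; abel⟩
  rw [card_image_add, card_image_add, rs_translate, card_image_add] at h0
  exact h0

section invol
variable {σ : G}

omit [DecidableEq G] in
lemma mem_zm (h2 : σ + σ = 0) {x : G} :
    x ∈ AddSubgroup.zmultiples σ ↔ x = 0 ∨ x = σ := by
  rw [AddSubgroup.mem_zmultiples_iff]
  constructor
  · rintro ⟨k, rfl⟩
    rcases Int.even_or_odd' k with ⟨m, hm | hm⟩
    · left
      rw [hm, mul_comm, mul_zsmul, two_zsmul, h2, zsmul_zero]
    · right
      rw [hm, add_zsmul, one_zsmul, mul_comm, mul_zsmul, two_zsmul, h2, zsmul_zero, zero_add]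
  · rintro (h | h)
    · exact ⟨0, by rw [h, zero_zsmul]⟩
    · exact ⟨1, by rw [h, one_zsmul]⟩

omit [DecidableEq G] in
lemma mk_eq (h2 : σ + σ = 0) {x y : G} :
    (QuotientAddGroup.mk x : G ⧸ AddSubgroup.zmultiples σ) = QuotientAddGroup.mk y ↔
      y = x ∨ y = x + σ := by
  rw [QuotientAddGroup.eq, mem_zm h2]
  constructor
  · rintro (h | h)
    · left
      have := congrArg (fun z => x + z) h
      simpa using this
    · right
      have := congrArg (fun z => x + z) h
      simpa using this
  · rintro (h | h)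
    · left; rw [h]; abel
    · right; rw [h]; abel

omit [DecidableEq G] in
lemma card_zm (h0 : σ ≠ 0) (h2 : σ + σ = 0) : Nat.card (AddSubgroup.zmultiples σ) = 2 := by
  rw [Nat.card_zmultiples]
  haveI : Fact (Nat.Prime 2) := ⟨Nat.prime_two⟩
  exact addOrderOf_eq_prime (by rw [two_nsmul, h2]) h0

omit [DecidableEq G] in
lemma card_quot [Finite G] (h0 : σ ≠ 0) (h2 : σ + σ = 0) :
    Nat.card G = 2 * Nat.card (G ⧸ AddSubgroup.zmultiples σ) := by
  have := AddSubgroup.card_eq_card_quotient_mul_card_addSubgroup (AddSubgroup.zmultiples σ)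
  rw [card_zm h0 h2] at this
  omega

end invol

end E38

end Pool.Agent.Work.MP_59976d_co
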